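import Pool.Agent.R625.AT.Term

/-!
The example `1 - g` over a finite cyclic group.
-/

set_option autoImplicit false
set_option linter.unusedSectionVars false

open scoped InnerProductSpace ENNReal Classical

namespace Pool.Agent.R625.AT

open Pool.Agent.W649.ZL TH57.Thr.Ati Matrix

variable {G : Type} [Group G] [Fintype G]

/-- the matrix `1 - g` -/
noncomputable def oneSub (g : G) : Matrix (Fin 1) (Fin 1) (MonoidAlgebra ℂ G) :=
  fun _ _ => MonoidAlgebra.single 1 1 - MonoidAlgebra.single g 1

/-- the constant function -/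
noncomputable def cst (c : ℂ) : EE G (Fin 1) :=
  ⟨fun _ => c, (memlp_two_iff _).2 (Summable.of_finite)⟩

theorem cst_apply (c : ℂ) (x : G × Fin 1) : cst c x = c := rfl

theorem mem_ker_oneSub (g : G) (hg : ∀ x : G, x ∈ Subgroup.zpowers g) (F : EE G (Fin 1)) :
    Rop (oneSub g) F = 0 ↔ F = cst (F (1, 0)) := by
  have key : ∀ u, Rop (oneSub g) F (u, 0) = F (u, 0) - F (g * u, 0) := by
    intro u
    rw [Rop_apply]
    simp only [Finset.univ_unique, Fin.default_eq_zero, Fin.isValue, Finset.sum_singleton]
    unfold oneSub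
    rw [sub_eq_add_neg, cv_add, cv_neg, cv_single, cv_single]
    simp only [one_mul, Fin.isValue]
    ring
  constructor
  · intro h
    have h1 : ∀ u, F (g * u, 0) = F (u, 0) := by
      intro u
      have := key u
      rw [h] at this
      have h2 : (0 : ℂ) = F (u, 0) - F (g * u, 0) := this
      linear_combination h2
    have h2 : ∀ n : ℕ, F (g ^ n, 0) = F (1, 0) := by
      intro n
      induction n with
      | zero => rw [pow_zero]
      | succ n ih => rw [pow_succ', h1, ih]
    ext ⟨u, i⟩
    rw [cst_apply]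
    have hi : i = 0 := Subsingleton.elim _ _
    subst hi
    obtain ⟨n, hn⟩ := (Submonoid.mem_powers_iff _ _).1 ((mem_powers_iff_mem_zpowers).2 (hg u))
    rw [← hn, h2]
  · intro h
    ext ⟨u, i⟩
    have hi : i = 0 := Subsingleton.elim _ _
    subst hi
    rw [key, h, cst_apply, cst_apply, sub_self]
    rfl

theorem norm_cst (c : ℂ) : ‖(cst c : EE G (Fin 1))‖ ^ 2 = Fintype.card G * ‖c‖ ^ 2 := by
  rw [norm_sq_tsum, tsum_fintype]
  simp only [cst_apply, Finset.sum_const, Finset.card_univ, Fintype.card_prod,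
    Fintype.card_fin, mul_one, nsmul_eq_mul]

theorem kap_oneSub (g : G) (hg : ∀ x : G, x ∈ Subgroup.zpowers g) :
    kap (oneSub g) = 1 / Fintype.card G := by
  have hc : (0 : ℝ) < Fintype.card G := by exact_mod_cast Fintype.card_pos
  have hc' : (Fintype.card G : ℂ) ≠ 0 := by exact_mod_cast hc.ne'
  set P := (LinearMap.ker (Rop (oneSub g) : EE G (Fin 1) →ₗ[ℂ]
    EE G (Fin 1))).topologicalClosure with hP
  have hPk : ∀ F, F ∈ P ↔ Rop (oneSub g) F = 0 := by
    intro F
    rw [hP, topcl_eq (ContinuousLinearMap.isClosed_ker (Rop (oneSub g)))]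
    rfl
  set v : EE G (Fin 1) := cst ((Fintype.card G : ℂ)⁻¹) with hv
  have h1 : P.starProjection (dl ((1 : G), (0 : Fin 1))) = v := by
    refine Submodule.eq_starProjection_of_mem_orthogonal (K := P)
      (u := dl ((1 : G), (0 : Fin 1))) (v := v) ?_ ?_
    · rw [hPk, mem_ker_oneSub g hg]
      rfl
    · rw [Submodule.mem_orthogonal']
      intro w hw
      rw [hPk, mem_ker_oneSub g hg] at hw
      rw [inner_sub_left, inner_dl_left, hw, cst_apply, hv, lp.inner_eq_tsum, tsum_fintype]
      simp only [cst_apply, Finset.sum_const, Finset.card_univ, Fintype.card_prod,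
        Fintype.card_fin, mul_one, nsmul_eq_mul, RCLike.inner_apply, map_inv₀, map_natCast]
      field_simp
      ring
  unfold kap vd
  rw [Fin.sum_univ_one]
  change ‖P.starProjection (dl ((1 : G), (0 : Fin 1)))‖ ^ 2 = _
  rw [h1, hv, norm_cst, norm_inv, Complex.norm_natCast]
  field_simp

/-- the closed reduced paths of `1 - g` -/
theorem cp_oneSub (g : G) (z : List ((Fin 1 × Fin 1 × G) × (Fin 1 × Fin 1 × G)))
    (hz : Cp (oneSub g) z) : orderOf g ≤ z.length := by
  obtain ⟨h1, ⟨h2, h3⟩, -, h5⟩ := hz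
  have hterm : ∀ e ∈ terms (oneSub g), e.2.2 = 1 ∨ e.2.2 = g := by
    intro e he
    rw [mem_terms] at he
    unfold cf oneSub at he
    by_contra hcon
    push Not at hcon
    apply he
    rw [MonoidAlgebra.coeff_sub, MonoidAlgebra.coeff_single, MonoidAlgebra.coeff_single,
      Finsupp.sub_apply, Finsupp.single_apply, Finsupp.single_apply, if_neg hcon.1.symm,
      if_neg hcon.2.symm, sub_zero]
  have hext : ∀ e f : Fin 1 × Fin 1 × G, e.2.2 = f.2.2 → e = f := by
    rintro ⟨a, b, c⟩ ⟨a', b', c'⟩ h
    have ha : a = a' := Subsingleton.elim _ _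
    have hb : b = b' := Subsingleton.elim _ _
    change c = c' at h
    rw [ha, hb, h]
  -- all steps are the same
  have hstep : ∀ p ∈ z, (p.1.2.2 = 1 ∧ p.2.2.2 = g) ∨ (p.1.2.2 = g ∧ p.2.2.2 = 1) := by
    intro p hp
    obtain ⟨a1, a2, a3, _⟩ := h2 p hp
    rcases hterm _ a1 with b1 | b1 <;> rcases hterm _ a2 with b2 | b2
    · exact absurd (hext _ _ (by rw [b1, b2])) a3
    · exact Or.inl ⟨b1, b2⟩
    · exact Or.inr ⟨b1, b2⟩
    · exact absurd (hext _ _ (by rw [b1, b2])) a3
  have hval : ∀ w : List ((Fin 1 × Fin 1 × G) × (Fin 1 × Fin 1 × G)), w ≠ [] →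
      (∀ p ∈ w, (p.1.2.2 = 1 ∧ p.2.2.2 = g) ∨ (p.1.2.2 = g ∧ p.2.2.2 = 1)) →
      w.IsChain (fun p q => p.2.1 = q.1.1 ∧ p.2 ≠ q.1) →
      ((∀ p ∈ w.head?, p.1.2.2 = 1) ∧ val w = (g⁻¹) ^ w.length) ∨
      ((∀ p ∈ w.head?, p.1.2.2 = g) ∧ val w = g ^ w.length) := by
    intro w
    induction w with
    | nil => intro h; exact absurd rfl h
    | cons p w ih =>
      intro _ hs hch
      have hp := hs p (by simp)
      cases w with
      | nil =>
        rcases hp with ⟨b1, b2⟩ | ⟨b1, b2⟩
        · left
          refine ⟨fun q hq => ?_, ?_⟩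
          · have : q = p := by simpa using hq.symm
            rw [this, b1]
          · simp [val, b1, b2]
        · right
          refine ⟨fun q hq => ?_, ?_⟩
          · have : q = p := by simpa using hq.symm
            rw [this, b1]
          · simp [val, b1, b2]
      | cons q w =>
        have hch' := List.isChain_cons.1 hch
        have hpq := (hch'.1 q rfl).2
        have ih' := ih (by simp) (fun r hr => hs r (List.mem_cons_of_mem _ hr)) hch'.2
        rcases hp with ⟨b1, b2⟩ | ⟨b1, b2⟩
        · left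
          refine ⟨fun r hr => ?_, ?_⟩
          · have : r = p := by simpa using hr.symm
            rw [this, b1]
          · rcases ih' with ⟨c1, c2⟩ | ⟨c1, c2⟩
            · rw [val_cons, c2, b1, b2, List.length_cons (a := p), pow_succ', one_mul]
            · exact absurd (hext _ _ (by rw [b2, c1 q rfl])) hpq
        · right
          refine ⟨fun r hr => ?_, ?_⟩
          · have : r = p := by simpa using hr.symm
            rw [this, b1]
          · rcases ih' with ⟨c1, c2⟩ | ⟨c1, c2⟩
            · exact absurd (hext _ _ (by rw [b2, c1 q rfl])) hpq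
            · rw [val_cons, c2, b1, b2, List.length_cons (a := p), pow_succ', inv_one, mul_one]
  have hlen : 0 < z.length := List.length_pos_iff.2 h1
  rcases hval z h1 hstep h3 with ⟨_, h6⟩ | ⟨_, h6⟩
  · rw [h5, inv_pow, eq_comm, inv_eq_one] at h6
    exact orderOf_le_of_pow_eq_one hlen h6
  · rw [h5] at h6
    exact orderOf_le_of_pow_eq_one hlen h6.symm

theorem trk_oneSub (g : G) (hg1 : g ≠ 1) : trk (oneSub g) = 1 := by
  have h1 : Ind (oneSub g) 1 := by
    refine ⟨id, id, fun _ _ h => h, fun _ _ h => h, fun s h => ?_⟩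
    have h2 := congrArg (fun x : MonoidAlgebra ℂ G => x.coeff 1) h
    unfold oneSub at h2
    simp only [MonoidAlgebra.coeff_sub, MonoidAlgebra.coeff_single, Finsupp.sub_apply,
      Finsupp.single_apply, if_neg hg1] at h2
    norm_num at h2
  have hb : BddAbove {r | Ind (oneSub g) r} := ⟨1, fun s hs => by
    have := Ind.le hs
    rw [Fintype.card_fin] at this
    omega⟩
  apply le_antisymm
  · have := trk_eq (oneSub g)
    rw [Fintype.card_fin] at this
    omega
  · exact le_csSup hb h1

end Pool.Agent.R625.AT
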