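import Pool.Agent.R625.AT.Rel

/-!
Kernel dimensions of matrices over group rings and closed reduced paths.
-/

set_option autoImplicit false
set_option linter.unusedSectionVars false

open scoped InnerProductSpace ENNReal Classical

namespace Pool.Agent.R625.AT

open Pool.Agent.W649.ZL TH57.Thr.Ati Matrix

variable {G : Type} [Group G] {K L : Type} [Fintype K] [Fintype L] [DecidableEq K] [DecidableEq L]

/-- multiplication of the rows and the columns by nonzero numbers -/
theorem scaled (A : Matrix K L (MonoidAlgebra ℂ G)) (x : K → ℝ) (y : L → ℝ) (hx : ∀ k, x k ≠ 0)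
    (hy : ∀ l, y l ≠ 0) : ∃ B : Matrix K L (MonoidAlgebra ℂ G), kap B = kap A ∧
      ∀ e : K × L × G, cf B e = ((x e.1 * y e.2.1 : ℝ) : ℂ) * cf A e := by
  let D1 : Matrix K K (MonoidAlgebra ℂ G) :=
    Matrix.diagonal fun k => MonoidAlgebra.single 1 (x k : ℂ)
  let D1' : Matrix K K (MonoidAlgebra ℂ G) :=
    Matrix.diagonal fun k => MonoidAlgebra.single 1 ((x k : ℂ)⁻¹)
  let D2 : Matrix L L (MonoidAlgebra ℂ G) :=
    Matrix.diagonal fun l => MonoidAlgebra.single 1 (y l : ℂ)
  let D2' : Matrix L L (MonoidAlgebra ℂ G) :=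
    Matrix.diagonal fun l => MonoidAlgebra.single 1 ((y l : ℂ)⁻¹)
  have h1 : D1 * D1' = 1 := by
    simp only [D1, D1']
    rw [Matrix.diagonal_mul_diagonal, ← Matrix.diagonal_one]
    congr 1
    funext k
    have : (x k : ℂ) ≠ 0 := by exact_mod_cast hx k
    rw [MonoidAlgebra.single_mul_single, mul_one, mul_inv_cancel₀ this, MonoidAlgebra.one_def]
  have h1' : D1' * D1 = 1 := by
    simp only [D1, D1']
    rw [Matrix.diagonal_mul_diagonal, ← Matrix.diagonal_one]
    congr 1
    funext k
    have : (x k : ℂ) ≠ 0 := by exact_mod_cast hx k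
    rw [MonoidAlgebra.single_mul_single, mul_one, inv_mul_cancel₀ this, MonoidAlgebra.one_def]
  have h2 : D2 * D2' = 1 := by
    simp only [D2, D2']
    rw [Matrix.diagonal_mul_diagonal, ← Matrix.diagonal_one]
    congr 1
    funext k
    have : (y k : ℂ) ≠ 0 := by exact_mod_cast hy k
    rw [MonoidAlgebra.single_mul_single, mul_one, mul_inv_cancel₀ this, MonoidAlgebra.one_def]
  refine ⟨D1 * A * D2, ?_, ?_⟩
  · rw [kap_unit_right _ h2, kap_iso A h1 h1']
  · intro e
    unfold cf
    simp only [D1, D2]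
    rw [Matrix.mul_diagonal, Matrix.diagonal_mul, MonoidAlgebra.coeff_mul_single_apply,
      MonoidAlgebra.coeff_single_mul_apply]
    simp only [inv_one, mul_one, one_mul]
    push_cast
    ring

theorem sum_sub {ε : Type} (T : Finset ε) (p : {e // e ∈ T} → ℝ) (p' : ε → ℝ)
    (hp : ∀ e (h : e ∈ T), p' e = p ⟨e, h⟩) (q : ε → Prop) [DecidablePred q]
    [DecidablePred fun e : {e // e ∈ T} => q e.1] :
    ∑ e ∈ T with q e, p' e = ∑ e : {e // e ∈ T} with q e.1, p e := by
  rw [Finset.sum_filter, Finset.sum_filter, ← Finset.sum_coe_sort T]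
  refine Finset.sum_congr rfl fun e _ => ?_
  by_cases h : q e.1
  · rw [if_pos h, if_pos h, hp e.1 e.2]
  · rw [if_neg h, if_neg h]

theorem upper (A : Matrix K L (MonoidAlgebra ℂ G)) (S : Finset K)
    (σ : {k // k ∈ S} → K × L × G) (h1 : ∀ k, σ k ∈ terms A) (h2 : ∀ k, (σ k).1 = k.1)
    (h3 : Function.Injective fun k => (σ k).2.1) (hS : ∀ e ∈ terms A, e.1 ∈ S) (N : ℕ)
    (hN : Dst (terms A) N) :
    ((N : ℝ) + 1) * kap A ≤ (N + 1) * (Fintype.card K - S.card) + S.card := by
  have key : ∀ η : ℝ, 0 < η → ((N : ℝ) + 1) * kap A ≤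
      (N + 1) * (Fintype.card K - S.card) + S.card + S.card * (N + 1) * η := by
    intro η hη
    have hb : ∀ e : {e // e ∈ terms A}, 0 < ‖cf A e.1‖ ^ 2 := by
      intro e
      have := norm_pos_iff.2 ((mem_terms A e.1).1 e.2)
      positivity
    obtain ⟨z, p, X, Y, hz, hsol, hsmall⟩ := exists_small
      (fun e : {e // e ∈ terms A} => (⟨e.1.1, hS e.1 e.2⟩ : {k // k ∈ S}))
      (fun e : {e // e ∈ terms A} => e.1.2.1) hb
      (fun k => ⟨σ k, h1 k⟩) (fun k => Subtype.ext (h2 k)) h3 hη
    let x : K → ℝ := fun k => if h : k ∈ S then √(X ⟨k, h⟩) else 1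
    have hx0 : ∀ k, x k ≠ 0 := by
      intro k
      simp only [x]
      split_ifs with h
      · exact (Real.sqrt_pos.2 (hsol.X0 _)).ne'
      · exact one_ne_zero
    have hy0 : ∀ l, √(Y l) ≠ 0 := fun l => (Real.sqrt_pos.2 (hsol.Y0 l)).ne'
    obtain ⟨B, hB1, hB2⟩ := scaled A x (fun l => √(Y l)) hx0 hy0
    have hT : terms B = terms A := by
      ext e
      rw [mem_terms, mem_terms, hB2]
      constructor
      · exact fun h => right_ne_zero_of_mul h
      · intro h
        refine mul_ne_zero ?_ h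
        exact_mod_cast mul_ne_zero (hx0 _) (hy0 _)
    set p' : K × L × G → ℝ := fun e => if h : e ∈ terms A then p ⟨e, h⟩ else 0 with hp'
    have hpe : ∀ e (h : e ∈ terms A), p' e = p ⟨e, h⟩ := fun e h => dif_pos h
    have hrow : ∀ k (hk : k ∈ S), 1 - η ≤ ∑ e ∈ terms A with e.1 = k, p' e := by
      intro k hk
      rw [sum_sub (terms A) p p' hpe (fun e => e.1 = k)]
      have h4 : ∑ e : {e // e ∈ terms A} with e.1.1 = k, p e = 1 - z * X ⟨k, hk⟩ := by
        rw [← hsol.row ⟨k, hk⟩]
        refine Finset.sum_congr ?_ fun _ _ => rfl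
        ext e
        simp only [Finset.mem_filter, Finset.mem_univ, true_and, Subtype.mk.injEq]
      have h5 := hsmall ⟨k, hk⟩
      rw [h4]
      linarith
    have hW : Wts B p' η := by
      refine ⟨?_, ?_, ?_, ?_, ?_⟩
      · intro e he
        rw [hT] at he
        rw [hpe e he]
        exact hsol.p0 _
      · intro e he
        rw [hT] at he
        rw [hpe e he]
        exact hsol.p1 _
      · intro j
        rw [hT, sum_sub (terms A) p p' hpe (fun e => e.2.1 = j)]
        have h4 : ∑ e : {e // e ∈ terms A} with e.1.2.1 = j, p e = 1 - z * Y j := by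
          rw [← hsol.col j]
          refine Finset.sum_congr ?_ fun _ _ => rfl
          ext e
          simp only [Finset.mem_filter, Finset.mem_univ, true_and]
        have h5 := mul_pos hz (hsol.Y0 j)
        rw [h4]
        linarith
      · intro e he
        rw [hT] at he ⊢
        exact hrow e.1 (hS e he)
      · intro e he
        rw [hT] at he
        rw [hB2, hpe e he, hsol.eq, norm_mul, Complex.norm_real, Real.norm_eq_abs, mul_pow, sq_abs,
          mul_pow]
        have h4 : x e.1 ^ 2 = X ⟨e.1, hS e he⟩ := by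
          simp only [x]
          rw [dif_pos (hS e he), Real.sq_sqrt (hsol.X0 _).le]
        rw [h4, Real.sq_sqrt (hsol.Y0 _).le]
        ring
    have hN' : Dst (terms B) N := by rwa [hT]
    rw [← hB1]
    have hk : kap B = ∑ k, ‖(LinearMap.ker (Rop B : EE G K →ₗ[ℂ]
      EE G L)).topologicalClosure.starProjection (dl ((1 : G), k))‖ ^ 2 := rfl
    rw [hk, Finset.mul_sum, ← Finset.sum_add_sum_compl S]
    have h4 : ∑ k ∈ S, ((N : ℝ) + 1) * ‖(LinearMap.ker (Rop B : EE G K →ₗ[ℂ]
        EE G L)).topologicalClosure.starProjection (dl ((1 : G), k))‖ ^ 2 ≤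
        ∑ k ∈ S, (1 + ((N : ℝ) + 1) * η) := by
      refine Finset.sum_le_sum fun k hk => ?_
      refine row_bound hη.le hW N hN' k ?_
      rw [hT]
      exact hrow k hk
    have h5 : ∑ k ∈ Sᶜ, ((N : ℝ) + 1) * ‖(LinearMap.ker (Rop B : EE G K →ₗ[ℂ]
        EE G L)).topologicalClosure.starProjection (dl ((1 : G), k))‖ ^ 2 ≤
        ∑ k ∈ Sᶜ, ((N : ℝ) + 1) := by
      refine Finset.sum_le_sum fun k _ => ?_
      refine mul_le_of_le_one_right (by positivity) ?_
      have h6 := Submodule.norm_starProjection_apply_le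
        (LinearMap.ker (Rop B : EE G K →ₗ[ℂ] EE G L)).topologicalClosure (dl ((1 : G), k))
      rw [norm_dl] at h6
      exact pow_le_one₀ (norm_nonneg _) h6
    have h6 : S.card ≤ Fintype.card K := Finset.card_le_univ S
    rw [Finset.sum_const, nsmul_eq_mul] at h4 h5
    rw [Finset.card_compl, Nat.cast_sub h6] at h5
    calc _ ≤ (S.card : ℝ) * (1 + (N + 1) * η) + (Fintype.card K - S.card) * (N + 1) :=
          add_le_add h4 h5
      _ = _ := by ring
  by_contra hcon
  push Not at hcon
  set gap := ((N : ℝ) + 1) * kap A - ((N + 1) * (Fintype.card K - S.card) + S.card) with hgap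
  have hg : 0 < gap := by rw [hgap]; linarith
  have hc : 0 < (S.card : ℝ) * (N + 1) + 1 := by positivity
  have h4 := key (gap / ((S.card : ℝ) * (N + 1) + 1)) (div_pos hg hc)
  have h5 : (S.card : ℝ) * (N + 1) * (gap / ((S.card : ℝ) * (N + 1) + 1)) < gap := by
    rw [← mul_div_assoc, div_lt_iff₀ hc]
    nlinarith
  linarith

theorem Dst.mono {T T' : Finset (K × L × G)} (h : T' ⊆ T) {N : ℕ} (hN : Dst T N) : Dst T' N := by
  have hR : ∀ w, Red T' w → Red T w := fun w hw =>
    ⟨fun p hp => ⟨h (hw.1 p hp).1, h (hw.1 p hp).2.1, (hw.1 p hp).2.2⟩, hw.2⟩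
  intro k v w hv hw
  exact hN k v w (hR v hv) (hR w hw)

theorem upper' (A : Matrix K L (MonoidAlgebra ℂ G)) (S : Finset K)
    (σ : {k // k ∈ S} → K × L × G) (h1 : ∀ k, σ k ∈ terms A) (h2 : ∀ k, (σ k).1 = k.1)
    (h3 : Function.Injective fun k => (σ k).2.1) (N : ℕ) (hN : Dst (terms A) N) :
    ((N : ℝ) + 1) * kap A ≤ (N + 1) * (Fintype.card K - S.card) + S.card := by
  let P : Matrix K K (MonoidAlgebra ℂ G) := Matrix.diagonal fun k => if k ∈ S then 1 else 0
  have hcf : ∀ e : K × L × G, cf (P * A) e = if e.1 ∈ S then cf A e else 0 := by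
    intro e
    unfold cf
    simp only [P]
    rw [Matrix.diagonal_mul]
    split_ifs
    · rw [one_mul]
    · rw [zero_mul]
      rfl
  have hT : ∀ e, e ∈ terms (P * A) ↔ e ∈ terms A ∧ e.1 ∈ S := by
    intro e
    rw [mem_terms, mem_terms, hcf]
    by_cases h : e.1 ∈ S
    · rw [if_pos h]
      exact ⟨fun a => ⟨a, h⟩, fun a => a.1⟩
    · rw [if_neg h]
      exact ⟨fun a => absurd rfl a, fun a => absurd a.2 h⟩
  have h4 := upper (P * A) S σ (fun k => (hT _).2 ⟨h1 k, by rw [h2]; exact k.2⟩) h2 h3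
    (fun e he => ((hT e).1 he).2) N (hN.mono fun e he => ((hT e).1 he).1)
  exact (mul_le_mul_of_nonneg_left (kap_le_mul P A) (by positivity)).trans h4

/-- the deficiency: the largest value of `|S| - |N(S)|` -/
noncomputable def dfc (A : Matrix K L (MonoidAlgebra ℂ G)) : ℕ :=
  (Finset.univ : Finset (Finset K)).sup fun S => S.card - (nbr A S).card

theorem dfc_le (A : Matrix K L (MonoidAlgebra ℂ G)) : (dfc A : ℝ) ≤ kap A := by
  obtain ⟨S, _, hS⟩ := Finset.exists_mem_eq_sup (Finset.univ : Finset (Finset K))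
    ⟨∅, Finset.mem_univ _⟩ (fun S => S.card - (nbr A S).card)
  unfold dfc
  rw [hS]
  rcases le_total (nbr A S).card S.card with h | h
  · rw [Nat.cast_sub h]
    exact le_kap A S
  · rw [Nat.sub_eq_zero_of_le h, Nat.cast_zero]
    exact vd_nonneg _

theorem exists_matching (A : Matrix K L (MonoidAlgebra ℂ G)) :
    ∃ (S : Finset K) (σ : {k // k ∈ S} → K × L × G), (∀ k, σ k ∈ terms A) ∧
      (∀ k, (σ k).1 = k.1) ∧ (Function.Injective fun k => (σ k).2.1) ∧
      Fintype.card K ≤ S.card + dfc A := by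
  set t := dfc A with ht
  let f' : K → Finset (L ⊕ Fin t) := fun k => Finset.disjSum (nbr A {k}) Finset.univ
  have hall : ∀ s : Finset K, s.card ≤ (s.biUnion f').card := by
    intro s
    rcases s.eq_empty_or_nonempty with rfl | ⟨k0, hk0⟩
    · simp
    have h1 : Finset.disjSum (nbr A s) (Finset.univ : Finset (Fin t)) ⊆ s.biUnion f' := by
      intro c hc
      rw [Finset.mem_biUnion]
      rcases c with l | i
      · rw [Finset.inl_mem_disjSum] at hc
        obtain ⟨_, k, hk, hkl⟩ := Finset.mem_filter.1 hc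
        refine ⟨k, hk, ?_⟩
        change Sum.inl l ∈ Finset.disjSum (nbr A {k}) Finset.univ
        rw [Finset.inl_mem_disjSum]
        exact Finset.mem_filter.2 ⟨Finset.mem_univ _, k, Finset.mem_singleton_self _, hkl⟩
      · refine ⟨k0, hk0, ?_⟩
        change Sum.inr i ∈ Finset.disjSum (nbr A {k0}) Finset.univ
        rw [Finset.inr_mem_disjSum]
        exact Finset.mem_univ _
    have h2 := Finset.card_le_card h1
    rw [Finset.card_disjSum, Finset.card_univ, Fintype.card_fin] at h2
    have h3 : s.card - (nbr A s).card ≤ t := by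
      rw [ht]
      unfold dfc
      exact Finset.le_sup (f := fun S : Finset K => S.card - (nbr A S).card) (Finset.mem_univ s)
    omega
  obtain ⟨f, hf1, hf2⟩ := (Finset.all_card_le_biUnion_card_iff_exists_injective f').1 hall
  set S : Finset K := Finset.univ.filter fun k => (f k).isLeft = true with hS
  have hex : ∀ k : {k // k ∈ S}, ∃ e : K × L × G, e ∈ terms A ∧ e.1 = k.1 ∧
      f k.1 = Sum.inl e.2.1 := by
    rintro ⟨k, hk⟩
    obtain ⟨l, hl⟩ := Sum.isLeft_iff.1 (Finset.mem_filter.1 hk).2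
    have h1 := hf2 k
    rw [hl] at h1
    change Sum.inl l ∈ Finset.disjSum (nbr A {k}) Finset.univ at h1
    rw [Finset.inl_mem_disjSum] at h1
    obtain ⟨_, k', hk', hne⟩ := Finset.mem_filter.1 h1
    rw [Finset.mem_singleton.1 hk'] at hne
    obtain ⟨g, hg⟩ : ∃ g, (A k l).coeff g ≠ 0 := by
      by_contra hcon
      push Not at hcon
      apply hne
      ext g
      exact hcon g
    exact ⟨(k, l, g), (mem_terms A _).2 hg, rfl, hl⟩
  choose σ a1 a2 a3 using hex
  refine ⟨S, σ, a1, a2, ?_, ?_⟩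
  · intro k k' h
    apply Subtype.ext
    apply hf1
    rw [a3 k, a3 k']
    exact congrArg Sum.inl h
  · have h1 : (Sᶜ).card ≤ t := by
      have h2 : (Sᶜ).image f ⊆ (Finset.univ : Finset (Fin t)).map ⟨Sum.inr, Sum.inr_injective⟩ := by
        intro c hc
        obtain ⟨k, hk, rfl⟩ := Finset.mem_image.1 hc
        have hk' : ¬ (f k).isLeft = true := by
          intro h
          exact (Finset.mem_compl.1 hk) (Finset.mem_filter.2 ⟨Finset.mem_univ _, h⟩)
        rw [Finset.mem_map]
        cases hfk : f k with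
        | inl l =>
          rw [hfk] at hk'
          exact absurd rfl hk'
        | inr i => exact ⟨i, Finset.mem_univ _, rfl⟩
      have h3 := Finset.card_le_card h2
      rw [Finset.card_image_of_injective _ hf1, Finset.card_map, Finset.card_univ,
        Fintype.card_fin] at h3
      exact h3
    rw [Finset.card_compl] at h1
    omega

/-- **Kernel dimension and paths.** -/
theorem main (A : Matrix K L (MonoidAlgebra ℂ G)) (N : ℕ) (hN : Dst (terms A) N) :
    ((N : ℝ) + 1) * (kap A - dfc A) ≤ Fintype.card K - dfc A := by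
  obtain ⟨S, σ, h1, h2, h3, h4⟩ := exists_matching A
  have h5 := upper' A S σ h1 h2 h3 N hN
  have h6 : (Fintype.card K : ℝ) ≤ S.card + dfc A := by exact_mod_cast h4
  have h7 : (0 : ℝ) ≤ N := Nat.cast_nonneg N
  nlinarith

theorem dfc_le_card (A : Matrix K L (MonoidAlgebra ℂ G)) : dfc A ≤ Fintype.card K := by
  unfold dfc
  refine Finset.sup_le fun S _ => ?_
  exact (Nat.sub_le _ _).trans (Finset.card_le_univ S)

/-- **Short closed paths.** -/
theorem short (A : Matrix K L (MonoidAlgebra ℂ G)) (hd : (dfc A : ℝ) < kap A) :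
    ∃ z : List ((K × L × G) × (K × L × G)), z ≠ [] ∧ Red (terms A) z ∧ Clo z ∧ val z = 1 ∧
      (z.length : ℝ) * (kap A - dfc A) ≤ 2 * (Fintype.card K - dfc A) := by
  set δ : ℝ := kap A - dfc A with hδ
  have hδ0 : 0 < δ := by rw [hδ]; linarith
  set r : ℝ := Fintype.card K - dfc A with hr
  have hr0 : 0 ≤ r := by
    have : (dfc A : ℝ) ≤ Fintype.card K := by exact_mod_cast dfc_le_card A
    rw [hr]
    linarith
  set N : ℕ := ⌊r / δ⌋₊ with hNdef
  have h1 : r / δ < N + 1 := Nat.lt_floor_add_one _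
  have h2 : (N : ℝ) ≤ r / δ := Nat.floor_le (by positivity)
  by_contra hcon
  push Not at hcon
  have h3 := main A N (by
    intro k v w hv hw h1' h2' hvl hwl hf hval
    by_contra hne
    obtain ⟨z, hz1, hz2, hz3, hz4, hz5⟩ := relation (terms A) v w k hv hw h1' h2' hne hf hval
    have h4 := hcon z hz1 hz2 hz3 hz5
    have h5 : (z.length : ℝ) ≤ 2 * N := by
      have : z.length ≤ 2 * N := by omega
      exact_mod_cast this
    have h6 : (z.length : ℝ) * δ ≤ 2 * r := by
      calc (z.length : ℝ) * δ ≤ 2 * N * δ := mul_le_mul_of_nonneg_right h5 hδ0.le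
        _ ≤ 2 * (r / δ) * δ := by
          apply mul_le_mul_of_nonneg_right _ hδ0.le
          linarith
        _ = 2 * r := by
          rw [mul_assoc, div_mul_cancel₀ _ hδ0.ne']
    linarith)
  rw [div_lt_iff₀ hδ0] at h1
  linarith

end Pool.Agent.R625.AT
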