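import Pool.Agent.R625.AT.Girth

/-!
The term rank, and the final forms of the bounds.
-/

set_option autoImplicit false
set_option linter.unusedSectionVars false

open scoped Classical

namespace Pool.Agent.R625.AT

open Pool.Agent.W649.ZL TH57.Thr.Ati Matrix

variable {G : Type} [Group G] {K L : Type} [Fintype K] [Fintype L] [DecidableEq K] [DecidableEq L]

/-- there are `r` nonzero entries in different rows and columns -/
def Ind (A : Matrix K L (MonoidAlgebra ℂ G)) (r : ℕ) : Prop :=
  ∃ (ρ : Fin r → K) (γ : Fin r → L), Function.Injective ρ ∧ Function.Injective γ ∧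
    ∀ s, A (ρ s) (γ s) ≠ 0

theorem Ind.le {A : Matrix K L (MonoidAlgebra ℂ G)} {r : ℕ} (h : Ind A r) :
    r + dfc A ≤ Fintype.card K := by
  obtain ⟨ρ, γ, hρ, hγ, hne⟩ := h
  obtain ⟨S, _, hS⟩ := Finset.exists_mem_eq_sup (Finset.univ : Finset (Finset K))
    ⟨∅, Finset.mem_univ _⟩ (fun S => S.card - (nbr A S).card)
  have h1 : dfc A = S.card - (nbr A S).card := hS
  set I : Finset (Fin r) := Finset.univ.filter fun s => ρ s ∈ S with hI
  have h2 : I.card ≤ (nbr A S).card := by
    refine Finset.card_le_card_of_injOn γ ?_ (fun a _ b _ h => hγ h)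
    intro s hs
    have hs' := (Finset.mem_filter.1 (Finset.mem_coe.1 hs)).2
    exact Finset.mem_coe.2 (Finset.mem_filter.2 ⟨Finset.mem_univ _, ρ s, hs', hne s⟩)
  have h2' : I.card ≤ S.card := by
    refine Finset.card_le_card_of_injOn ρ ?_ (fun a _ b _ h => hρ h)
    intro s hs
    exact Finset.mem_coe.2 (Finset.mem_filter.1 (Finset.mem_coe.1 hs)).2
  have h3 : S.card + (Finset.univ.filter fun s : Fin r => ρ s ∉ S).card ≤ Fintype.card K := by
    have h4 : (Finset.univ.filter fun s : Fin r => ρ s ∉ S).card ≤ (Sᶜ).card := by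
      refine Finset.card_le_card_of_injOn ρ ?_ (fun a _ b _ h => hρ h)
      intro s hs
      exact Finset.mem_coe.2 (Finset.mem_compl.2 (Finset.mem_filter.1 (Finset.mem_coe.1 hs)).2)
    have h5 := Finset.card_add_card_compl S
    omega
  have h4 : I.card + (Finset.univ.filter fun s : Fin r => ρ s ∉ S).card = r := by
    have := Finset.card_filter_add_card_filter_not (s := (Finset.univ : Finset (Fin r)))
      (fun s => ρ s ∈ S)
    rw [Finset.card_univ, Fintype.card_fin] at this
    exact this
  omega

theorem exists_ind (A : Matrix K L (MonoidAlgebra ℂ G)) :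
    ∃ r, Ind A r ∧ r + dfc A = Fintype.card K := by
  obtain ⟨S, σ, h1, h2, h3, h4⟩ := exists_matching A
  have h5 : Ind A S.card := by
    let e : Fin S.card ≃ {k // k ∈ S} := S.equivFin.symm
    refine ⟨fun s => (e s).1, fun s => (σ (e s)).2.1, ?_, ?_, ?_⟩
    · exact Subtype.val_injective.comp e.injective
    · exact h3.comp e.injective
    · intro s h
      have h6 := (mem_terms A _).1 (h1 (e s))
      apply h6
      unfold cf
      rw [h2, h]
      rfl
  have h6 := h5.le
  exact ⟨S.card, h5, by omega⟩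

/-- the term rank -/
noncomputable def trk (A : Matrix K L (MonoidAlgebra ℂ G)) : ℕ := sSup {r | Ind A r}

theorem trk_eq (A : Matrix K L (MonoidAlgebra ℂ G)) : trk A + dfc A = Fintype.card K := by
  obtain ⟨r, h1, h2⟩ := exists_ind A
  have hb : BddAbove {r | Ind A r} := ⟨Fintype.card K, fun s hs => by
    have := Ind.le hs
    omega⟩
  have h3 : r ≤ trk A := le_csSup hb h1
  have h4 : trk A ∈ {r | Ind A r} := Nat.sSup_mem ⟨r, h1⟩ hb
  have h5 := Ind.le h4
  omega

/-- the closed reduced paths of the matrix -/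
structure Cp (A : Matrix K L (MonoidAlgebra ℂ G)) (z : List ((K × L × G) × (K × L × G))) :
    Prop where
  ne : z ≠ []
  red : Red (terms A) z
  clo : Clo z
  one : val z = 1

/-- **The rank is at most the term rank, and it is the term rank up to short closed paths.** -/
theorem rank_term (A : Matrix K L (MonoidAlgebra ℂ G)) :
    (Fintype.card K : ℝ) - trk A ≤ kap A ∧
    (∀ N : ℕ, (∀ z, Cp A z → 2 * N < z.length) →
      kap A ≤ Fintype.card K - trk A + trk A / (N + 1)) ∧
    (kap A ≠ Fintype.card K - trk A → ∃ z, Cp A z ∧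
      (z.length : ℝ) * (kap A - (Fintype.card K - trk A)) ≤ 2 * trk A) := by
  have h1 : (trk A : ℝ) + dfc A = Fintype.card K := by exact_mod_cast trk_eq A
  have h2 : (dfc A : ℝ) = Fintype.card K - trk A := by linarith
  have h3 := dfc_le A
  refine ⟨by linarith, ?_, ?_⟩
  · intro N hN
    have h4 := main A N (by
      intro k v w hv hw h1' h2' hvl hwl hf hval
      by_contra hne
      obtain ⟨z, hz1, hz2, hz3, hz4, hz5⟩ := relation (terms A) v w k hv hw h1' h2' hne hf hval
      have := hN z ⟨hz1, hz2, hz3, hz5⟩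
      omega)
    have h5 : (0 : ℝ) < N + 1 := by positivity
    have h6 : kap A - dfc A ≤ trk A / (N + 1) := by
      rw [le_div_iff₀ h5]
      linarith
    linarith
  · intro hne
    have h4 : (dfc A : ℝ) < kap A := by
      rw [h2]
      exact lt_of_le_of_ne (by linarith) (Ne.symm hne)
    obtain ⟨z, hz1, hz2, hz3, hz4, hz5⟩ := short A h4
    refine ⟨z, ⟨hz1, hz2, hz3, hz4⟩, ?_⟩
    rw [h2] at hz5
    linarith

end Pool.Agent.R625.AT
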