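import Pool.Agent.R625.AT.Path
import Pool.Agent.TH57.Thr.Ati3

/-!
Bounds of the kernel dimension of a matrix over a group ring without short reduced paths which are
closed.
-/

set_option autoImplicit false
set_option linter.unusedSectionVars false

open scoped InnerProductSpace ENNReal Classical

namespace Pool.Agent.R625.AT

open Pool.Agent.W649.ZL TH57.Thr.Ati Matrix

variable {G : Type} [Group G] {K L : Type} [Fintype K] [Fintype L] [DecidableEq K] [DecidableEq L]

/-- the reduced paths of length at most `N` are determined by their ends -/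
def Dst (T : Finset (K × L × G)) (N : ℕ) : Prop :=
  ∀ (k : K) (v w : List ((K × L × G) × (K × L × G))), Red T v → Red T w →
    (∀ q ∈ v.head?, q.1.1 = k) → (∀ q ∈ w.head?, q.1.1 = k) → v.length ≤ N → w.length ≤ N →
    fin k v = fin k w → val v = val w → v = w

theorem row_bound {A : Matrix K L (MonoidAlgebra ℂ G)} {p : K × L × G → ℝ} {μ : ℝ} (hμ : 0 ≤ μ)
    (hp : Wts A p μ) (N : ℕ) (hN : Dst (terms A) N) (k : K)
    (hk : 1 - μ ≤ ∑ e ∈ terms A with e.1 = k, p e) :
    ((N : ℝ) + 1) * ‖(LinearMap.ker (Rop A : EE G K →ₗ[ℂ] EE G L)).topologicalClosure.starProjection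
      (dl ((1 : G), k))‖ ^ 2 ≤ 1 + (N + 1) * μ := by
  set P := (LinearMap.ker (Rop A : EE G K →ₗ[ℂ] EE G L)).topologicalClosure with hP
  set F : EE G K := P.starProjection (dl ((1 : G), k)) with hF
  have hFk : Rop A F = 0 := by
    have h1 : F ∈ P := Submodule.starProjection_apply_mem _ _
    rw [hP, topcl_eq (ContinuousLinearMap.isClosed_ker (Rop A))] at h1
    exact h1
  set D : ℝ := ‖F‖ ^ 2 with hD
  have hD0 : 0 ≤ D := by positivity
  have hFD : D ^ 2 ≤ ‖F (1, k)‖ ^ 2 := by
    have h1 := norm_sq_star P (dl ((1 : G), k))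
    rw [inner_dl_left] at h1
    have h2 : D ≤ ‖F (1, k)‖ := by
      rw [hD, h1]
      exact Complex.re_le_norm _
    exact pow_le_pow_left₀ hD0 h2 2
  set W : Finset (List ((K × L × G) × (K × L × G))) :=
    (Finset.range (N + 1)).biUnion (fun n => words (terms A) n k none) with hW
  have hdisj : ((Finset.range (N + 1) : Finset ℕ) : Set ℕ).PairwiseDisjoint
      (fun n => words (terms A) n k none) := by
    intro a _ b _ hab
    refine Finset.disjoint_left.2 fun w hwa hwb => hab ?_
    rw [← (words_prop _ _ _ _ _ hwa).1, ← (words_prop _ _ _ _ _ hwb).1]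
  have hinj : Set.InjOn (fun w : List ((K × L × G) × (K × L × G)) => ((val w)⁻¹ * (1 : G), fin k w))
      (W : Set (List ((K × L × G) × (K × L × G)))) := by
    intro v hv w hw hvw
    rw [hW, Finset.coe_biUnion] at hv hw
    simp only [Set.mem_iUnion] at hv hw
    obtain ⟨a, ha, hv⟩ := hv
    obtain ⟨b, hb, hw⟩ := hw
    have pv := words_prop _ _ _ _ _ (Finset.mem_coe.1 hv)
    have pw := words_prop _ _ _ _ _ (Finset.mem_coe.1 hw)
    have ha' := Finset.mem_range.1 (Finset.mem_coe.1 ha)
    have hb' := Finset.mem_range.1 (Finset.mem_coe.1 hb)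
    have h1 := (Prod.mk.injEq _ _ _ _ ▸ hvw : _ ∧ _)
    exact hN k v w pv.2.1 pw.2.1 (fun q hq => (pv.2.2 q hq).1) (fun q hq => (pw.2.2 q hq).1)
      (by omega) (by omega) h1.2 (inv_injective (mul_right_cancel h1.1))
  have htot : ∑ n ∈ Finset.range (N + 1), en (terms A) F n k none 1 ≤ D := by
    have h1 : ∑ n ∈ Finset.range (N + 1), en (terms A) F n k none 1 =
        ∑ w ∈ W, ‖F ((val w)⁻¹ * (1 : G), fin k w)‖ ^ 2 := by
      rw [hW, Finset.sum_biUnion hdisj]
      rfl
    rw [h1, hD, norm_sq_tsum]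
    have h2 := Finset.sum_image (f := fun y : G × K => ‖F y‖ ^ 2) hinj
    rw [← h2]
    exact ((memlp_two_iff _).1 (lp.memℓp F)).sum_le_tsum _ (fun _ _ => by positivity)
  have hen0 : ∀ n, 0 ≤ en (terms A) F n k none 1 := fun n =>
    Finset.sum_nonneg fun _ _ => by positivity
  have hlev : ∀ n ∈ Finset.range (N + 1), D ^ 2 ≤ en (terms A) F n k none 1 + μ * D := by
    intro n hn
    have h1 := level hp hFk n k none (fun s hs => by simp at hs) hk 1
    have h2 : cw p none * ‖F (1, k)‖ ^ 2 = ‖F (1, k)‖ ^ 2 := one_mul _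
    rw [h2] at h1
    have h3 : ∑ m ∈ Finset.range n, en (terms A) F m k none 1 ≤ D := by
      refine le_trans (Finset.sum_le_sum_of_subset_of_nonneg ?_ fun m _ _ => hen0 m) htot
      intro m hm
      rw [Finset.mem_range] at hm hn ⊢
      omega
    have h4 := mul_le_mul_of_nonneg_left h3 hμ
    linarith
  have hsum := Finset.sum_le_sum hlev
  rw [Finset.sum_const, Finset.card_range, nsmul_eq_mul, Finset.sum_add_distrib,
    Finset.sum_const, Finset.card_range, nsmul_eq_mul] at hsum
  push_cast at hsum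
  have h1 : ((N : ℝ) + 1) * D ^ 2 ≤ D + (N + 1) * (μ * D) := by linarith
  change ((N : ℝ) + 1) * D ≤ 1 + (N + 1) * μ
  rcases hD0.eq_or_lt with h2 | h2
  · rw [← h2, mul_zero]
    positivity
  · refine le_of_mul_le_mul_left ?_ h2
    calc D * (((N : ℝ) + 1) * D) = ((N : ℝ) + 1) * D ^ 2 := by ring
      _ ≤ _ := h1
      _ = D * (1 + (N + 1) * μ) := by ring

/-- multiplication by a square matrix on the left does not lower the kernel dimension -/
theorem kap_le_mul (P : Matrix K K (MonoidAlgebra ℂ G)) (A : Matrix K L (MonoidAlgebra ℂ G)) :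
    kap A ≤ kap (P * A) := by
  have h1 := ker_add_range (Rop A) (Rop_eqv A)
  have h2 := ker_add_range (Rop (P * A)) (Rop_eqv (P * A))
  have h3 : vd (LinearMap.range (Rop (P * A) : EE G K →ₗ[ℂ] EE G L)) ≤
      vd (LinearMap.range (Rop A : EE G K →ₗ[ℂ] EE G L)) := by
    apply vd_mono
    rintro _ ⟨f, rfl⟩
    exact ⟨Rop P f, by
      change Rop A (Rop P f) = Rop (P * A) f
      rw [Rop_mul]; rfl⟩
  unfold kap
  linarith

/-- the lower bound by the rows and the columns -/
theorem le_kap_card (A : Matrix K L (MonoidAlgebra ℂ G)) :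
    (Fintype.card K : ℝ) - Fintype.card L ≤ kap A := by
  have h1 := ker_add_range (Rop A) (Rop_eqv A)
  have h2 : vd (LinearMap.range (Rop A : EE G K →ₗ[ℂ] EE G L)) ≤ Fintype.card L := by
    rw [← vd_top (G := G) (J := L)]
    exact vd_mono le_top
  unfold kap
  linarith

/-- the columns which meet a set of rows -/
noncomputable def nbr (A : Matrix K L (MonoidAlgebra ℂ G)) (S : Finset K) : Finset L :=
  Finset.univ.filter fun l => ∃ k ∈ S, A k l ≠ 0

theorem le_kap (A : Matrix K L (MonoidAlgebra ℂ G)) (S : Finset K) :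
    (S.card : ℝ) - (nbr A S).card ≤ kap A := by
  let C : Matrix K ({k // k ∉ S} ⊕ {l // l ∈ nbr A S}) (MonoidAlgebra ℂ G) :=
    fun k c => Sum.elim (fun k' : {k // k ∉ S} => if k = k'.1 then 1 else 0)
      (fun l : {l // l ∈ nbr A S} => A k l.1) c
  have h1 := le_kap_card C
  have h2 : Fintype.card ({k // k ∉ S} ⊕ {l // l ∈ nbr A S}) =
      Fintype.card K - S.card + (nbr A S).card := by
    rw [Fintype.card_sum, Fintype.card_coe]
    congr 1
    rw [Fintype.card_subtype_compl, Fintype.card_coe]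
  have h3 : kap C ≤ kap A := by
    unfold kap
    apply vd_mono
    intro F hF
    have hF' : Rop C F = 0 := hF
    have hz : ∀ k ∉ S, ∀ u, F (u, k) = 0 := by
      intro k hk u
      have h4 : Rop C F (u, Sum.inl ⟨k, hk⟩) = 0 := by rw [hF']; rfl
      rw [Rop_apply, Finset.sum_eq_single k] at h4
      · have h5 : C k (Sum.inl ⟨k, hk⟩) = 1 := by simp [C]
        rw [h5, cv_one] at h4
        exact h4
      · intro k' _ hk'
        have h5 : C k' (Sum.inl ⟨k, hk⟩) = 0 := by simp [C, hk']
        rw [h5, cv_zero]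
      · intro h; exact absurd (Finset.mem_univ _) h
    change Rop A F = 0
    ext ⟨u, l⟩
    rw [Rop_apply]
    change _ = (0 : ℂ)
    by_cases hl : l ∈ nbr A S
    · have h4 : Rop C F (u, Sum.inr ⟨l, hl⟩) = 0 := by rw [hF']; rfl
      rw [Rop_apply] at h4
      exact h4
    · refine Finset.sum_eq_zero fun k _ => ?_
      by_cases hk : k ∈ S
      · have h5 : A k l = 0 := by
          by_contra h
          exact hl (Finset.mem_filter.2 ⟨Finset.mem_univ _, k, hk, h⟩)
        rw [h5, cv_zero]
      · have : (fun v => F (v, k)) = fun _ => (0 : ℂ) := funext fun v => hz k hk v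
        rw [this, cv_zerof]
  rw [h2] at h1
  have h4 : S.card ≤ Fintype.card K := Finset.card_le_univ S
  rw [Nat.cast_add, Nat.cast_sub h4] at h1
  linarith

end Pool.Agent.R625.AT
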