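import Mathlib

/-!
Fractional matchings of a finite bipartite multigraph with weights: the fixed point of the
recursion of the monomer-dimer model with activity `z`, and its limit as `z` tends to zero.
-/

set_option autoImplicit false
set_option linter.unusedSectionVars false

open scoped Classical

namespace Pool.Agent.R625.AT

variable {ε K L : Type} [Fintype ε] [Fintype K] [Fintype L]

/-- the solution of the equations with activity `z` -/
structure Sol (ro : ε → K) (co : ε → L) (b : ε → ℝ) (z : ℝ) (p : ε → ℝ) (X : K → ℝ)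
    (Y : L → ℝ) : Prop where
  p0 : ∀ e, 0 < p e
  p1 : ∀ e, p e < 1
  X0 : ∀ k, 0 < X k
  Y0 : ∀ l, 0 < Y l
  eq : ∀ e, p e * (1 - p e) = b e * X (ro e) * Y (co e)
  row : ∀ k, ∑ e with ro e = k, p e = 1 - z * X k
  col : ∀ l, ∑ e with co e = l, p e = 1 - z * Y l

/-- one half of the recursion -/
noncomputable def half {κ : Type} (t : ε → κ) (b : ε → ℝ) (z : ℝ) (x : ε → ℝ) (e : ε) : ℝ :=
  (z + ∑ f with t f = t e ∧ f ≠ e, b f * x f)⁻¹

theorem half_sum_nonneg {κ : Type} (t : ε → κ) {b : ε → ℝ} (hb : ∀ e, 0 < b e) {x : ε → ℝ}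
    (hx : ∀ e, 0 ≤ x e) (e : ε) : 0 ≤ ∑ f with t f = t e ∧ f ≠ e, b f * x f :=
  Finset.sum_nonneg fun f _ => mul_nonneg (hb f).le (hx f)

theorem half_mem {κ : Type} (t : ε → κ) {b : ε → ℝ} (hb : ∀ e, 0 < b e) {z : ℝ} (hz : 0 < z)
    {x : ε → ℝ} (hx : ∀ e, 0 ≤ x e) (e : ε) :
    0 < half t b z x e ∧ half t b z x e ≤ z⁻¹ := by
  have h := half_sum_nonneg t hb hx e
  unfold half
  exact ⟨inv_pos.2 (by linarith), inv_anti₀ hz (by linarith)⟩

theorem half_anti {κ : Type} (t : ε → κ) {b : ε → ℝ} (hb : ∀ e, 0 < b e) {z : ℝ} (hz : 0 < z)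
    {x y : ε → ℝ} (hx : ∀ e, 0 ≤ x e) (hxy : ∀ e, x e ≤ y e) (e : ε) :
    half t b z y e ≤ half t b z x e := by
  have h := half_sum_nonneg t hb hx e
  unfold half
  refine inv_anti₀ (by linarith) ?_
  have : ∑ f with t f = t e ∧ f ≠ e, b f * x f ≤ ∑ f with t f = t e ∧ f ≠ e, b f * y f :=
    Finset.sum_le_sum fun f _ => mul_le_mul_of_nonneg_left (hxy f) (hb f).le
  linarith

theorem exists_fix (ro : ε → K) (co : ε → L) {b : ε → ℝ} (hb : ∀ e, 0 < b e) {z : ℝ}
    (hz : 0 < z) : ∃ x : ε → ℝ, (∀ e, 0 < x e) ∧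
      half ro b z (half co b z x) = x := by
  have hfact : Fact ((0 : ℝ) ≤ z⁻¹) := ⟨(inv_pos.2 hz).le⟩
  have hm : ∀ {κ : Type} (t : ε → κ) {x : ε → ℝ}, (∀ e, 0 ≤ x e) → ∀ e,
      half t b z x e ∈ Set.Icc (0 : ℝ) z⁻¹ := fun t x hx e =>
    ⟨(half_mem t hb hz hx e).1.le, (half_mem t hb hz hx e).2⟩
  let F : (ε → Set.Icc (0 : ℝ) z⁻¹) →o (ε → Set.Icc (0 : ℝ) z⁻¹) :=
    { toFun := fun x e => ⟨half ro b z (half co b z fun f => (x f : ℝ)) e,
        hm ro (fun e => (hm co (fun e => (x e).2.1) e).1) e⟩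
      monotone' := by
        intro x y hxy e
        refine Subtype.coe_le_coe.1 ?_
        dsimp only
        refine half_anti ro hb hz (fun e => (hm co (fun e => (y e).2.1) e).1) ?_ e
        intro e
        exact half_anti co hb hz (fun e => (x e).2.1) (fun e => Subtype.coe_le_coe.2 (hxy e)) e }
  have hfix := OrderHom.map_lfp F
  set x := OrderHom.lfp F with hx
  have h1 : ∀ e, half ro b z (half co b z fun f => (x f : ℝ)) e = (x e : ℝ) := by
    intro e
    have := congrArg (fun y : ε → Set.Icc (0 : ℝ) z⁻¹ => (y e : ℝ)) hfix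
    exact this
  refine ⟨fun e => (x e : ℝ), ?_, funext h1⟩
  intro e
  dsimp only
  rw [← h1 e]
  exact (half_mem ro hb hz (fun e => (hm co (fun e => (x e).2.1) e).1) e).1

theorem sum_split {κ : Type} (t : ε → κ) (g : ε → ℝ) (e : ε) :
    ∑ f with t f = t e, g f = g e + ∑ f with t f = t e ∧ f ≠ e, g f := by
  rw [← Finset.add_sum_erase _ g (show e ∈ Finset.univ.filter (fun f => t f = t e) by simp)]
  congr 1
  apply Finset.sum_congr _ fun _ _ => rfl
  ext f
  simp only [Finset.mem_erase, Finset.mem_filter, Finset.mem_univ, true_and]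
  tauto

theorem exists_sol (ro : ε → K) (co : ε → L) {b : ε → ℝ} (hb : ∀ e, 0 < b e) {z : ℝ}
    (hz : 0 < z) : ∃ p X Y, Sol ro co b z p X Y := by
  obtain ⟨x, hx0, hx⟩ := exists_fix ro co hb hz
  set y : ε → ℝ := half co b z x with hy
  have hy0 : ∀ e, 0 < y e := fun e => (half_mem co hb hz (fun e => (hx0 e).le) e).1
  set X : K → ℝ := fun k => (z + ∑ f with ro f = k, b f * y f)⁻¹ with hX
  set Y : L → ℝ := fun l => (z + ∑ f with co f = l, b f * x f)⁻¹ with hY
  have hsx : ∀ k, 0 ≤ ∑ f with ro f = k, b f * y f := fun k =>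
    Finset.sum_nonneg fun f _ => mul_nonneg (hb f).le (hy0 f).le
  have hsy : ∀ l, 0 ≤ ∑ f with co f = l, b f * x f := fun k =>
    Finset.sum_nonneg fun f _ => mul_nonneg (hb f).le (hx0 f).le
  have hX0 : ∀ k, 0 < X k := fun k => inv_pos.2 (by have := hsx k; linarith)
  have hY0 : ∀ l, 0 < Y l := fun l => inv_pos.2 (by have := hsy l; linarith)
  have hXe : ∀ e, X (ro e) * (1 + b e * x e * y e) = x e := by
    intro e
    have h1 : z + ∑ f with ro f = ro e, b f * y f = (x e)⁻¹ + b e * y e := by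
      rw [sum_split ro (fun f => b f * y f) e]
      have h2 : x e = (z + ∑ f with ro f = ro e ∧ f ≠ e, b f * y f)⁻¹ := by
        conv_lhs => rw [← hx]
        rfl
      rw [h2, inv_inv]
      ring
    have h3 : X (ro e) = (z + ∑ f with ro f = ro e, b f * y f)⁻¹ := rfl
    rw [h3, h1]
    have h4 := hx0 e
    have h5 : 0 < b e * y e := mul_pos (hb e) (hy0 e)
    have h6 : (x e)⁻¹ + b e * y e ≠ 0 := by positivity
    have h7 : 1 + b e * x e * y e = ((x e)⁻¹ + b e * y e) * x e := by
      rw [add_mul, inv_mul_cancel₀ h4.ne']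
      ring
    rw [h7, ← mul_assoc, inv_mul_cancel₀ h6, one_mul]
  have hYe : ∀ e, Y (co e) * (1 + b e * x e * y e) = y e := by
    intro e
    have h1 : z + ∑ f with co f = co e, b f * x f = (y e)⁻¹ + b e * x e := by
      rw [sum_split co (fun f => b f * x f) e]
      have h2 : y e = (z + ∑ f with co f = co e ∧ f ≠ e, b f * x f)⁻¹ := rfl
      rw [h2, inv_inv]
      ring
    have h3 : Y (co e) = (z + ∑ f with co f = co e, b f * x f)⁻¹ := rfl
    rw [h3, h1]
    have h4 := hy0 e
    have h5 : 0 < b e * x e := mul_pos (hb e) (hx0 e)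
    have h6 : (y e)⁻¹ + b e * x e ≠ 0 := by positivity
    have h7 : 1 + b e * x e * y e = ((y e)⁻¹ + b e * x e) * y e := by
      rw [add_mul, inv_mul_cancel₀ h4.ne']
    rw [h7, ← mul_assoc, inv_mul_cancel₀ h6, one_mul]
  have hD : ∀ e, 0 < 1 + b e * x e * y e := fun e => by
    have := mul_pos (mul_pos (hb e) (hx0 e)) (hy0 e)
    linarith
  set p : ε → ℝ := fun e => b e * x e * y e / (1 + b e * x e * y e) with hp
  have hpX : ∀ e, p e = b e * y e * X (ro e) := by
    intro e
    have h1 := hXe e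
    have h2 := hD e
    rw [hp]
    dsimp only
    rw [div_eq_iff h2.ne']
    linear_combination (-(b e * y e)) * h1
  have hpY : ∀ e, p e = b e * x e * Y (co e) := by
    intro e
    have h1 := hYe e
    have h2 := hD e
    rw [hp]
    dsimp only
    rw [div_eq_iff h2.ne']
    linear_combination (-(b e * x e)) * h1
  refine ⟨p, X, Y, ⟨fun e => ?_, fun e => ?_, hX0, hY0, fun e => ?_, fun k => ?_, fun l => ?_⟩⟩
  · exact div_pos (mul_pos (mul_pos (hb e) (hx0 e)) (hy0 e)) (hD e)
  · exact (div_lt_one (hD e)).2 (by linarith)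
  · have h1 : 1 - p e = (1 + b e * x e * y e)⁻¹ := by
      rw [hp]
      have := hD e
      field_simp
      ring
    have h2 : (1 - p e) * (1 + b e * x e * y e) = 1 := by
      rw [h1, inv_mul_cancel₀ (hD e).ne']
    have h3 := hXe e
    have h4 := hYe e
    have h5 : p e * (1 - p e) * (1 + b e * x e * y e) =
        b e * X (ro e) * Y (co e) * (1 + b e * x e * y e) := by
      calc p e * (1 - p e) * (1 + b e * x e * y e)
          = p e * ((1 - p e) * (1 + b e * x e * y e)) := by ring
        _ = p e := by rw [h2, mul_one]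
        _ = b e * y e * X (ro e) := hpX e
        _ = b e * X (ro e) * (Y (co e) * (1 + b e * x e * y e)) := by rw [h4]; ring
        _ = _ := by ring
    exact mul_right_cancel₀ (hD e).ne' h5
  · have h1 : ∑ e with ro e = k, p e = (∑ e with ro e = k, b e * y e) * X k := by
      rw [Finset.sum_mul]
      refine Finset.sum_congr rfl fun e he => ?_
      rw [hpX e, (Finset.mem_filter.1 he).2]
    have h2 : X k * (z + ∑ f with ro f = k, b f * y f) = 1 :=
      inv_mul_cancel₀ (by have := hsx k; linarith)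
    rw [h1]
    linarith
  · have h1 : ∑ e with co e = l, p e = (∑ e with co e = l, b e * x e) * Y l := by
      rw [Finset.sum_mul]
      refine Finset.sum_congr rfl fun e he => ?_
      rw [hpY e, (Finset.mem_filter.1 he).2]
    have h2 : Y l * (z + ∑ f with co f = l, b f * x f) = 1 :=
      inv_mul_cancel₀ (by have := hsy l; linarith)
    rw [h1]
    linarith

theorem Sol.mu {ro : ε → K} {co : ε → L} {b : ε → ℝ} {z : ℝ} {p : ε → ℝ} {X : K → ℝ}
    {Y : L → ℝ} (h : Sol ro co b z p X Y) (hz : 0 < z) (k : K) : z * X k ∈ Set.Icc (0 : ℝ) 1 := by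
  have h1 := h.row k
  have h2 : 0 ≤ ∑ e with ro e = k, p e := Finset.sum_nonneg fun e _ => (h.p0 e).le
  exact ⟨(mul_pos hz (h.X0 k)).le, by linarith⟩

theorem Sol.nu {ro : ε → K} {co : ε → L} {b : ε → ℝ} {z : ℝ} {p : ε → ℝ} {X : K → ℝ}
    {Y : L → ℝ} (h : Sol ro co b z p X Y) (hz : 0 < z) (l : L) : z * Y l ∈ Set.Icc (0 : ℝ) 1 := by
  have h1 := h.col l
  have h2 : 0 ≤ ∑ e with co e = l, p e := Finset.sum_nonneg fun e _ => (h.p0 e).le
  exact ⟨(mul_pos hz (h.Y0 l)).le, by linarith⟩

theorem Sol.comp {ro : ε → K} {co : ε → L} {b : ε → ℝ} {z : ℝ} {p : ε → ℝ} {X : K → ℝ}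
    {Y : L → ℝ} (h : Sol ro co b z p X Y) (hz : 0 < z) {e f : ε} (hef : e ≠ f)
    (hc : co e = co f) : b e * p f * (z * X (ro e)) ≤ b f * (z * X (ro f)) := by
  have h1 := h.eq e
  have h2 := h.eq f
  have h3 : p e + p f ≤ 1 := by
    have h4 := h.col (co e)
    have h5 := (h.nu hz (co e)).1
    have h6 : p e + p f ≤ ∑ g with co g = co e, p g := by
      rw [sum_split co p e]
      have h7 : p f ≤ ∑ g with co g = co e ∧ g ≠ e, p g :=
        Finset.single_le_sum (f := p) (fun g _ => (h.p0 g).le)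
          (by simp [hc, hef.symm])
      linarith
    linarith
  have hY := h.Y0 (co e)
  have h4 : p f * (p e * (1 - p e)) ≤ p f * (1 - p f) := by
    have := h.p0 e
    have := h.p0 f
    have h5 : p e * (1 - p e) ≤ 1 - p f := by nlinarith
    exact mul_le_mul_of_nonneg_left h5 (h.p0 f).le
  rw [h1, h2, ← hc] at h4
  have h5 : b e * p f * X (ro e) ≤ b f * X (ro f) := by
    refine le_of_mul_le_mul_right ?_ hY
    calc b e * p f * X (ro e) * Y (co e) = p f * (b e * X (ro e) * Y (co e)) := by ring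
      _ ≤ _ := h4
  calc b e * p f * (z * X (ro e)) = z * (b e * p f * X (ro e)) := by ring
    _ ≤ z * (b f * X (ro f)) := mul_le_mul_of_nonneg_left h5 hz.le
    _ = _ := by ring

/-- If there is a matching of all rows, the deficiency of the rows tends to zero. -/
theorem exists_small (ro : ε → K) (co : ε → L) {b : ε → ℝ} (hb : ∀ e, 0 < b e) (σ : K → ε)
    (hσ1 : ∀ k, ro (σ k) = k) (hσ2 : Function.Injective fun k => co (σ k)) {η : ℝ} (hη : 0 < η) :
    ∃ z p X Y, 0 < z ∧ Sol ro co b z p X Y ∧ ∀ k, z * X k ≤ η := by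
  by_contra hcon
  push Not at hcon
  set z : ℕ → ℝ := fun n => 1 / ((n : ℝ) + 1) with hz
  have hz0 : ∀ n, 0 < z n := fun n => by rw [hz]; positivity
  have hz1 : ∀ n, z n ≤ 1 := fun n => by
    rw [hz]
    dsimp only
    rw [div_le_one (by positivity)]
    have : (0 : ℝ) ≤ n := Nat.cast_nonneg n
    linarith
  have hzl : Filter.Tendsto z Filter.atTop (nhds 0) := tendsto_one_div_add_atTop_nhds_zero_nat
  choose p X Y hS using fun n => exists_sol ro co hb (hz0 n)
  let q : ℕ → (ε ⊕ K ⊕ L) → ℝ := fun n =>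
    Sum.elim (p n) (Sum.elim (fun k => z n * X n k) (fun l => z n * Y n l))
  have hcomp : IsCompact (Set.univ.pi fun _ : ε ⊕ K ⊕ L => Set.Icc (0 : ℝ) 1) :=
    isCompact_univ_pi fun _ => isCompact_Icc
  obtain ⟨a, ha, φ, hφ, hlim⟩ := hcomp.tendsto_subseq (x := q) (by
    intro n i _
    rcases i with e | k | l
    · exact ⟨((hS n).p0 e).le, ((hS n).p1 e).le⟩
    · exact (hS n).mu (hz0 n) k
    · exact (hS n).nu (hz0 n) l)
  rw [tendsto_pi_nhds] at hlim
  set P : ε → ℝ := fun e => a (Sum.inl e) with hP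
  set M : K → ℝ := fun k => a (Sum.inr (Sum.inl k)) with hM
  set N : L → ℝ := fun l => a (Sum.inr (Sum.inr l)) with hN
  have lP : ∀ e, Filter.Tendsto (fun n => p (φ n) e) Filter.atTop (nhds (P e)) := fun e =>
    hlim (Sum.inl e)
  have lM : ∀ k, Filter.Tendsto (fun n => z (φ n) * X (φ n) k) Filter.atTop (nhds (M k)) :=
    fun k => hlim (Sum.inr (Sum.inl k))
  have lN : ∀ l, Filter.Tendsto (fun n => z (φ n) * Y (φ n) l) Filter.atTop (nhds (N l)) :=
    fun l => hlim (Sum.inr (Sum.inr l))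
  have hM0 : ∀ k, 0 ≤ M k := fun k => (ha (Sum.inr (Sum.inl k)) trivial).1
  have hN0 : ∀ l, 0 ≤ N l := fun l => (ha (Sum.inr (Sum.inr l)) trivial).1
  have hP0 : ∀ e, 0 ≤ P e := fun e => (ha (Sum.inl e) trivial).1
  have hrow : ∀ k, ∑ e with ro e = k, P e = 1 - M k := by
    intro k
    refine tendsto_nhds_unique (tendsto_finsetSum _ fun e _ => lP e) ?_
    have h1 : (fun n => ∑ e with ro e = k, p (φ n) e) = fun n => 1 - z (φ n) * X (φ n) k :=
      funext fun n => (hS (φ n)).row k
    rw [h1]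
    exact tendsto_const_nhds.sub (lM k)
  have hcol : ∀ l, ∑ e with co e = l, P e = 1 - N l := by
    intro l
    refine tendsto_nhds_unique (tendsto_finsetSum _ fun e _ => lP e) ?_
    have h1 : (fun n => ∑ e with co e = l, p (φ n) e) = fun n => 1 - z (φ n) * Y (φ n) l :=
      funext fun n => (hS (φ n)).col l
    rw [h1]
    exact tendsto_const_nhds.sub (lN l)
  have hMN : ∀ e, M (ro e) * N (co e) = 0 := by
    intro e
    refine le_antisymm ?_ (mul_nonneg (hM0 _) (hN0 _))
    have h1 := (lM (ro e)).mul (lN (co e))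
    have h2 : Filter.Tendsto (fun n => z (φ n) * (b e)⁻¹) Filter.atTop (nhds 0) := by
      have := (hzl.comp hφ.tendsto_atTop).mul_const ((b e)⁻¹)
      rwa [zero_mul] at this
    refine le_of_tendsto_of_tendsto' h1 h2 fun n => ?_
    have h3 := (hS (φ n)).eq e
    have h4 := hz0 (φ n)
    have h5 := hz1 (φ n)
    have h6 : p (φ n) e * (1 - p (φ n) e) ≤ 1 := by
      have := (hS (φ n)).p0 e
      have := (hS (φ n)).p1 e
      nlinarith
    have h7 : X (φ n) (ro e) * Y (φ n) (co e) ≤ (b e)⁻¹ := by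
      rw [h3] at h6
      rw [← one_div, le_div_iff₀ (hb e)]
      calc X (φ n) (ro e) * Y (φ n) (co e) * b e = b e * X (φ n) (ro e) * Y (φ n) (co e) := by ring
        _ ≤ 1 := h6
    have h8 : 0 ≤ X (φ n) (ro e) * Y (φ n) (co e) :=
      mul_nonneg ((hS (φ n)).X0 _).le ((hS (φ n)).Y0 _).le
    calc z (φ n) * X (φ n) (ro e) * (z (φ n) * Y (φ n) (co e))
        = z (φ n) * (z (φ n) * (X (φ n) (ro e) * Y (φ n) (co e))) := by ring
      _ ≤ z (φ n) * (1 * (b e)⁻¹) := by
        refine mul_le_mul_of_nonneg_left ?_ h4.le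
        exact mul_le_mul h5 h7 h8 zero_le_one
      _ = z (φ n) * (b e)⁻¹ := by rw [one_mul]
  have hcmp : ∀ e f, e ≠ f → co e = co f → b e * P f * M (ro e) ≤ b f * M (ro f) := by
    intro e f hef hc
    refine le_of_tendsto_of_tendsto' (((lP f).const_mul (b e)).mul (lM (ro e)))
      ((lM (ro f)).const_mul (b f)) fun n => ?_
    exact (hS (φ n)).comp (hz0 _) hef hc
  -- the rows with positive deficiency
  have hzero : ∀ k, M k = 0 := by
    by_contra hne
    push Not at hne
    obtain ⟨k0, hk0⟩ := hne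
    set I : Finset K := Finset.univ.filter fun k => 0 < M k with hI
    set J : Finset L := Finset.univ.filter fun l => ∃ e, co e = l ∧ 0 < M (ro e) with hJ
    set E : Finset ε := Finset.univ.filter fun e => 0 < M (ro e) with hE
    have hk0I : k0 ∈ I := Finset.mem_filter.2 ⟨Finset.mem_univ _,
      lt_of_le_of_ne (hM0 k0) (Ne.symm hk0)⟩
    have s1 : ∑ e ∈ E, P e = ∑ k ∈ I, (1 - M k) := by
      rw [← Finset.sum_fiberwise_of_maps_to (s := E) (t := I) (g := ro)]
      · refine Finset.sum_congr rfl fun k hk => ?_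
        rw [← hrow k]
        refine Finset.sum_congr ?_ fun _ _ => rfl
        ext e
        simp only [hE, Finset.mem_filter, Finset.mem_univ, true_and]
        constructor
        · exact fun h => h.2
        · intro h
          exact ⟨by rw [h]; exact (Finset.mem_filter.1 hk).2, h⟩
      · intro e he
        exact Finset.mem_filter.2 ⟨Finset.mem_univ _, (Finset.mem_filter.1 he).2⟩
    have s2 : ∑ e ∈ E, P e = J.card := by
      rw [← Finset.sum_fiberwise_of_maps_to (s := E) (t := J) (g := co)]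
      · have : ∀ l ∈ J, ∑ e ∈ E with co e = l, P e = 1 := by
          intro l hl
          obtain ⟨e, he, hMe⟩ := (Finset.mem_filter.1 hl).2
          have hNl : N l = 0 := by
            have := hMN e
            rw [he] at this
            exact (mul_eq_zero.1 this).resolve_left hMe.ne'
          have h1 := hcol l
          rw [hNl, sub_zero] at h1
          rw [← h1]
          refine Finset.sum_subset ?_ ?_
          · intro f hf
            exact Finset.mem_filter.2 ⟨Finset.mem_univ _, (Finset.mem_filter.1 hf).2⟩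
          · intro f hf hf2
            have hfl := (Finset.mem_filter.1 hf).2
            by_contra hPf
            have hPf' : 0 < P f := lt_of_le_of_ne (hP0 f) (Ne.symm hPf)
            apply hf2
            refine Finset.mem_filter.2 ⟨Finset.mem_filter.2 ⟨Finset.mem_univ _, ?_⟩, hfl⟩
            by_cases hef : e = f
            · rw [← hef]
              exact hMe
            · have h2 := hcmp e f hef (by rw [he, hfl])
              have h3 : 0 < b e * P f * M (ro e) := mul_pos (mul_pos (hb e) hPf') hMe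
              have h4 : 0 < b f * M (ro f) := lt_of_lt_of_le h3 h2
              exact (pos_iff_pos_of_mul_pos h4).1 (hb f)
        rw [Finset.sum_congr rfl this, Finset.sum_const, nsmul_eq_mul, mul_one]
      · intro e he
        exact Finset.mem_filter.2 ⟨Finset.mem_univ _, e, rfl, (Finset.mem_filter.1 he).2⟩
    have s3 : I.card ≤ J.card := by
      refine Finset.card_le_card_of_injOn (fun k => co (σ k)) ?_ (fun a _ b _ h => hσ2 h)
      intro k hk
      refine Finset.mem_coe.2 (Finset.mem_filter.2 ⟨Finset.mem_univ _, σ k, rfl, ?_⟩)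
      rw [hσ1]
      exact (Finset.mem_filter.1 (Finset.mem_coe.1 hk)).2
    have s4 : ∑ k ∈ I, (1 - M k) < I.card := by
      have h1 : ∑ k ∈ I, (1 - M k) < ∑ k ∈ I, (1 : ℝ) := by
        refine Finset.sum_lt_sum (fun k hk => by have := hM0 k; linarith) ⟨k0, hk0I, ?_⟩
        have := (Finset.mem_filter.1 hk0I).2
        linarith
      rwa [Finset.sum_const, nsmul_eq_mul, mul_one] at h1
    have s5 : (I.card : ℝ) ≤ J.card := by exact_mod_cast s3
    linarith
  have hev : ∀ᶠ n in Filter.atTop, ∀ k, z (φ n) * X (φ n) k < η := by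
    rw [Filter.eventually_all]
    intro k
    have := lM k
    rw [hzero k] at this
    exact this.eventually_lt_const hη
  obtain ⟨n, hn⟩ := hev.exists
  obtain ⟨k, hk⟩ := hcon (z (φ n)) (p (φ n)) (X (φ n)) (Y (φ n)) (hz0 _) (hS _)
  exact absurd (hn k) (not_lt.2 hk.le)

end Pool.Agent.R625.AT
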