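import Pool.Agent.R625.AT.Mono
import Pool.Agent.TH57.Thr.Ati2

/-!
The energy of a vector in the kernel of a matrix over a group ring along the reduced paths of the
graph of the matrix.
-/

set_option autoImplicit false
set_option linter.unusedSectionVars false

open scoped InnerProductSpace ENNReal Classical

namespace Pool.Agent.R625.AT

open Pool.Agent.W649.ZL TH57.Thr.Ati Matrix

variable {G : Type} [Group G] {K L : Type} [Fintype K] [Fintype L] [DecidableEq K] [DecidableEq L]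

/-- the terms of the entries of the matrix -/
noncomputable def terms (A : Matrix K L (MonoidAlgebra ℂ G)) : Finset (K × L × G) :=
  (Finset.univ : Finset (K × L)).biUnion fun q =>
    (A q.1 q.2).coeff.support.image fun g => (q.1, q.2, g)

/-- the coefficient of a term -/
def cf (A : Matrix K L (MonoidAlgebra ℂ G)) (x : K × L × G) : ℂ := (A x.1 x.2.1).coeff x.2.2

theorem mem_terms (A : Matrix K L (MonoidAlgebra ℂ G)) (x : K × L × G) :
    x ∈ terms A ↔ cf A x ≠ 0 := by
  unfold terms cf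
  rw [Finset.mem_biUnion]
  constructor
  · rintro ⟨q, _, hq⟩
    obtain ⟨g, hg, rfl⟩ := Finset.mem_image.1 hq
    exact Finsupp.mem_support_iff.1 hg
  · intro h
    exact ⟨(x.1, x.2.1), Finset.mem_univ _, Finset.mem_image.2
      ⟨x.2.2, Finsupp.mem_support_iff.2 h, rfl⟩⟩

theorem Rop_terms (A : Matrix K L (MonoidAlgebra ℂ G)) (F : EE G K) (u : G) (j : L) :
    Rop A F (u, j) = ∑ x ∈ (terms A).filter (fun x => x.2.1 = j),
      cf A x * F (x.2.2 * u, x.1) := by
  rw [Rop_apply]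
  have h1 : ∀ k, cv (A k j) (fun v => F (v, k)) u =
      ∑ h ∈ (A k j).coeff.support, (A k j).coeff h * F (h * u, k) := fun k => rfl
  rw [Finset.sum_congr rfl fun k _ => h1 k, Finset.sum_sigma']
  refine Finset.sum_nbij' (fun y => (y.1, j, y.2)) (fun x => ⟨x.1, x.2.2⟩) ?_ ?_ ?_ ?_ ?_
  · rintro ⟨k, h⟩ hy
    rw [Finset.mem_sigma] at hy
    rw [Finset.mem_filter, mem_terms]
    exact ⟨Finsupp.mem_support_iff.1 hy.2, rfl⟩
  · rintro ⟨k, j', h⟩ hx
    rw [Finset.mem_filter, mem_terms] at hx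
    obtain ⟨hx, hj⟩ := hx
    change j' = j at hj
    subst hj
    rw [Finset.mem_sigma]
    exact ⟨Finset.mem_univ _, Finsupp.mem_support_iff.2 hx⟩
  · rintro ⟨k, h⟩ _
    rfl
  · rintro ⟨k, j', h⟩ hx
    rw [Finset.mem_filter] at hx
    obtain ⟨_, hj⟩ := hx
    change j' = j at hj
    subst hj
    rfl
  · rintro ⟨k, h⟩ _
    rfl

/-- the weights of the terms: `μ` is the deficiency of the rows -/
structure Wts (A : Matrix K L (MonoidAlgebra ℂ G)) (p : K × L × G → ℝ) (μ : ℝ) : Prop where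
  p0 : ∀ e ∈ terms A, 0 < p e
  p1 : ∀ e ∈ terms A, p e < 1
  col : ∀ j, ∑ e ∈ terms A with e.2.1 = j, p e ≤ 1
  row : ∀ e ∈ terms A, 1 - μ ≤ ∑ f ∈ terms A with f.1 = e.1, p f
  cfp : ∀ e ∈ terms A, ‖cf A e‖ ^ 2 = p e * (1 - p e)

theorem step {A : Matrix K L (MonoidAlgebra ℂ G)} {p : K × L × G → ℝ} {μ : ℝ} (hp : Wts A p μ)
    {F : EE G K} (hF : Rop A F = 0) (x : G) (t : K × L × G) (ht : t ∈ terms A) :
    p t * ‖F (x, t.1)‖ ^ 2 ≤ ∑ s ∈ (terms A).filter (fun s => s ≠ t ∧ s.2.1 = t.2.1),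
      (1 - p s) * ‖F (s.2.2 * t.2.2⁻¹ * x, s.1)‖ ^ 2 := by
  set W := (terms A).filter (fun s => s ≠ t ∧ s.2.1 = t.2.1) with hW
  have hWt : ∀ s ∈ W, s ∈ terms A := fun s hs => (Finset.mem_filter.1 hs).1
  have hsplit : (terms A).filter (fun s => s.2.1 = t.2.1) = insert t W := by
    ext s
    rw [Finset.mem_insert, hW, Finset.mem_filter, Finset.mem_filter]
    constructor
    · rintro ⟨h1, h2⟩
      by_cases h : s = t
      · exact Or.inl h
      · exact Or.inr ⟨h1, h, h2⟩
    · rintro (rfl | ⟨h1, _, h2⟩)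
      · exact ⟨ht, rfl⟩
      · exact ⟨h1, h2⟩
  have htW : t ∉ W := by
    rw [hW, Finset.mem_filter]
    rintro ⟨_, h, _⟩
    exact h rfl
  have h1 : Rop A F (t.2.2⁻¹ * x, t.2.1) = 0 := by rw [hF]; rfl
  rw [Rop_terms, hsplit, Finset.sum_insert htW, mul_inv_cancel_left] at h1
  set y : K × L × G → ℝ := fun s => ‖F (s.2.2 * t.2.2⁻¹ * x, s.1)‖ with hy
  have h2 : ‖cf A t‖ * ‖F (x, t.1)‖ ≤ ∑ s ∈ W, ‖cf A s‖ * y s := by
    rw [← norm_mul, eq_neg_of_add_eq_zero_left h1, norm_neg]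
    refine (norm_sum_le _ _).trans (le_of_eq (Finset.sum_congr rfl fun s _ => ?_))
    rw [norm_mul]
    simp only [hy, mul_assoc]
  have hcs : (∑ s ∈ W, ‖cf A s‖ * y s) ^ 2 ≤
      (∑ s ∈ W, p s) * ∑ s ∈ W, (1 - p s) * y s ^ 2 := by
    refine Finset.sum_sq_le_sum_mul_sum_of_sq_le_mul _ ?_ ?_ fun s hs => le_of_eq ?_
    · intro s hs
      exact (hp.p0 s (hWt s hs)).le
    · intro s hs
      have := hp.p1 s (hWt s hs)
      exact mul_nonneg (by linarith) (by positivity)
    · rw [mul_pow, hp.cfp s (hWt s hs)]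
      ring
  have hsum : ∑ s ∈ W, p s ≤ 1 - p t := by
    have h3 := hp.col t.2.1
    rw [hsplit, Finset.sum_insert htW] at h3
    linarith
  have h1t : 0 < 1 - p t := by linarith [hp.p1 t ht]
  have hS : 0 ≤ ∑ s ∈ W, (1 - p s) * y s ^ 2 := Finset.sum_nonneg fun s hs => by
    have := hp.p1 s (hWt s hs)
    exact mul_nonneg (by linarith) (by positivity)
  have h5 : (‖cf A t‖ * ‖F (x, t.1)‖) ^ 2 ≤ (∑ s ∈ W, ‖cf A s‖ * y s) ^ 2 :=
    pow_le_pow_left₀ (mul_nonneg (norm_nonneg _) (norm_nonneg _)) h2 2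
  have h6 : (1 - p t) * (p t * ‖F (x, t.1)‖ ^ 2) ≤
      (1 - p t) * ∑ s ∈ W, (1 - p s) * y s ^ 2 := by
    calc (1 - p t) * (p t * ‖F (x, t.1)‖ ^ 2)
        = (‖cf A t‖ * ‖F (x, t.1)‖) ^ 2 := by rw [mul_pow, hp.cfp t ht]; ring
      _ ≤ _ := h5.trans hcs
      _ ≤ _ := mul_le_mul_of_nonneg_right hsum hS
  exact le_of_mul_le_mul_left h6 h1t

/-- the reduced paths of a given length; the first term is not the given one -/
noncomputable def words (T : Finset (K × L × G)) :
    ℕ → K → Option (K × L × G) → Finset (List ((K × L × G) × (K × L × G)))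
  | 0, _, _ => {[]}
  | n + 1, k, o => (((T ×ˢ T).filter (fun p => p.1.1 = k ∧ o ≠ some p.1 ∧ p.2 ≠ p.1 ∧
      p.2.2.1 = p.1.2.1)).sigma (fun p => words T n p.2.1 (some p.2))).map
        ⟨fun x => x.1 :: x.2, by
          rintro ⟨a, b⟩ ⟨c, d⟩ h
          simp only [List.cons.injEq] at h
          obtain ⟨rfl, rfl⟩ := h
          rfl⟩

/-- the value of a path -/
def val (w : List ((K × L × G) × (K × L × G))) : G :=
  (w.map (fun p => p.1.2.2 * p.2.2.2⁻¹)).prod

/-- the last row of a path which starts at the row `k` -/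
def fin (k : K) (w : List ((K × L × G) × (K × L × G))) : K :=
  match w.getLast? with
  | none => k
  | some p => p.2.1

theorem val_cons (p : (K × L × G) × (K × L × G)) (w : List ((K × L × G) × (K × L × G))) :
    val (p :: w) = p.1.2.2 * p.2.2.2⁻¹ * val w := by
  simp [val]

theorem fin_nil (k : K) : fin (G := G) (L := L) k [] = k := rfl

theorem fin_cons (k : K) (p : (K × L × G) × (K × L × G))
    (w : List ((K × L × G) × (K × L × G))) : fin k (p :: w) = fin p.2.1 w := by
  cases w with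
  | nil => rfl
  | cons q w =>
    unfold fin
    rw [List.getLast?_cons_cons]
    obtain ⟨r, hr⟩ : ∃ r, (q :: w).getLast? = some r :=
      ⟨(q :: w).getLast (List.cons_ne_nil _ _), List.getLast?_eq_getLast_of_ne_nil _⟩
    rw [hr]

theorem sum_words (T : Finset (K × L × G)) (n : ℕ) (k : K) (o : Option (K × L × G))
    (H : List ((K × L × G) × (K × L × G)) → ℝ) :
    ∑ w ∈ words T (n + 1) k o, H w = ∑ t ∈ T with t.1 = k ∧ o ≠ some t,
      ∑ s ∈ T with s ≠ t ∧ s.2.1 = t.2.1, ∑ w ∈ words T n s.1 (some s), H ((t, s) :: w) := by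
  rw [words, Finset.sum_map, Finset.sum_sigma]
  have h1 : (T ×ˢ T).filter (fun p => p.1.1 = k ∧ o ≠ some p.1 ∧ p.2 ≠ p.1 ∧
      p.2.2.1 = p.1.2.1) = (T.filter (fun t => t.1 = k ∧ o ≠ some t)).biUnion
        (fun t => (T.filter (fun s => s ≠ t ∧ s.2.1 = t.2.1)).image (fun s => (t, s))) := by
    ext ⟨t, s⟩
    simp only [Finset.mem_filter, Finset.mem_product, Finset.mem_biUnion, Finset.mem_image,
      Prod.mk.injEq]
    constructor
    · rintro ⟨⟨a1, a2⟩, a3, a4, a5, a6⟩
      exact ⟨t, ⟨a1, a3, a4⟩, s, ⟨a2, a5, a6⟩, rfl, rfl⟩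
    · rintro ⟨t', ⟨a1, a3, a4⟩, s', ⟨a2, a5, a6⟩, rfl, rfl⟩
      exact ⟨⟨a1, a2⟩, a3, a4, a5, a6⟩
  rw [h1, Finset.sum_biUnion]
  · refine Finset.sum_congr rfl fun t _ => ?_
    rw [Finset.sum_image]
    · rfl
    · intro a _ b _ hab
      exact (Prod.mk.injEq _ _ _ _ ▸ hab).2
  · intro a _ b _ hab
    refine Finset.disjoint_left.2 fun c hc hc' => hab ?_
    obtain ⟨_, _, rfl⟩ := Finset.mem_image.1 hc
    obtain ⟨_, _, h⟩ := Finset.mem_image.1 hc'
    exact (congrArg Prod.fst h).symm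

/-- reduced paths over `T` -/
def Red (T : Finset (K × L × G)) (w : List ((K × L × G) × (K × L × G))) : Prop :=
  (∀ p ∈ w, p.1 ∈ T ∧ p.2 ∈ T ∧ p.2 ≠ p.1 ∧ p.2.2.1 = p.1.2.1) ∧
    w.IsChain (fun p q => p.2.1 = q.1.1 ∧ p.2 ≠ q.1)

theorem words_prop (T : Finset (K × L × G)) (n : ℕ) : ∀ (k : K) (o : Option (K × L × G))
    (w : List ((K × L × G) × (K × L × G))), w ∈ words T n k o → w.length = n ∧ Red T w ∧
      ∀ p ∈ w.head?, p.1.1 = k ∧ o ≠ some p.1 := by
  induction n with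
  | zero =>
    intro k o w hw
    rw [words, Finset.mem_singleton] at hw
    subst hw
    simp [Red]
  | succ n ih =>
    intro k o w hw
    rw [words, Finset.mem_map] at hw
    obtain ⟨⟨p, v⟩, hpv, rfl⟩ := hw
    rw [Finset.mem_sigma, Finset.mem_filter, Finset.mem_product] at hpv
    obtain ⟨⟨⟨h1, h2⟩, h3, h4, h5, h6⟩, h7⟩ := hpv
    obtain ⟨i1, ⟨i2, i3⟩, i4⟩ := ih _ _ _ h7
    change (p :: v).length = n + 1 ∧ Red T (p :: v) ∧
      ∀ q ∈ (p :: v).head?, q.1.1 = k ∧ o ≠ some q.1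
    refine ⟨by simpa using i1, ⟨?_, ?_⟩, ?_⟩
    · intro q hq
      rcases List.mem_cons.1 hq with rfl | hq
      · exact ⟨h1, h2, h5, h6⟩
      · exact i2 q hq
    · refine List.isChain_cons.2 ⟨fun q hq => ?_, i3⟩
      have := i4 q hq
      refine ⟨this.1.symm, fun h8 => ?_⟩
      exact this.2 (congrArg some h8)
    · intro q hq
      have : q = p := by simpa using hq.symm
      rw [this]
      exact ⟨h3, h4⟩

/-- the weight which is left -/
noncomputable def cw (p : K × L × G → ℝ) : Option (K × L × G) → ℝ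
  | none => 1
  | some s => 1 - p s

/-- the energy of the reduced paths of length `n` -/
noncomputable def en (T : Finset (K × L × G)) (F : EE G K) (n : ℕ) (k : K)
    (o : Option (K × L × G)) (x : G) : ℝ :=
  ∑ w ∈ words T n k o, ‖F ((val w)⁻¹ * x, fin k w)‖ ^ 2

theorem en_succ (T : Finset (K × L × G)) (F : EE G K) (n : ℕ) (k : K)
    (o : Option (K × L × G)) (x : G) : en T F (n + 1) k o x =
      ∑ t ∈ T with t.1 = k ∧ o ≠ some t, ∑ s ∈ T with s ≠ t ∧ s.2.1 = t.2.1,
        en T F n s.1 (some s) (s.2.2 * t.2.2⁻¹ * x) := by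
  unfold en
  rw [sum_words]
  refine Finset.sum_congr rfl fun t _ => Finset.sum_congr rfl fun s _ =>
    Finset.sum_congr rfl fun w _ => ?_
  rw [val_cons, fin_cons]
  have : (t.2.2 * s.2.2⁻¹ * val w)⁻¹ * x = (val w)⁻¹ * (s.2.2 * t.2.2⁻¹ * x) := by group
  change ‖F ((t.2.2 * s.2.2⁻¹ * val w)⁻¹ * x, _)‖ ^ 2 = _
  rw [this]

theorem en_zero (T : Finset (K × L × G)) (F : EE G K) (k : K)
    (o : Option (K × L × G)) (x : G) : en T F 0 k o x = ‖F (x, k)‖ ^ 2 := by
  unfold en
  rw [words, Finset.sum_singleton, fin_nil]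
  simp [val]

theorem level {A : Matrix K L (MonoidAlgebra ℂ G)} {p : K × L × G → ℝ} {μ : ℝ}
    (hp : Wts A p μ) {F : EE G K} (hF : Rop A F = 0) (n : ℕ) :
    ∀ (k : K) (o : Option (K × L × G)), (∀ s, o = some s → s ∈ terms A ∧ s.1 = k) →
      1 - μ ≤ ∑ e ∈ terms A with e.1 = k, p e → ∀ x : G, cw p o * ‖F (x, k)‖ ^ 2 ≤ en (terms A) F n k o x +
        μ * ∑ m ∈ Finset.range n, en (terms A) F m k o x := by
  induction n with
  | zero =>
    intro k o ho _ x
    rw [Finset.sum_range_zero, mul_zero, add_zero, en_zero]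
    refine mul_le_of_le_one_left (by positivity) ?_
    rcases o with _ | s
    · exact le_refl _
    · have := hp.p0 s (ho s rfl).1
      unfold cw
      linarith
  | succ n ih =>
    intro k o ho hr x
    have hcw : cw p o ≤ μ + ∑ t ∈ terms A with t.1 = k ∧ o ≠ some t, p t := by
      rcases o with _ | s
      · have : (terms A).filter (fun t => t.1 = k ∧ (none : Option (K × L × G)) ≠ some t) =
            (terms A).filter (fun t => t.1 = k) := by
          ext t
          simp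
        rw [this]
        unfold cw
        linarith
      · obtain ⟨hs, hk⟩ := ho s rfl
        have h1 : (terms A).filter (fun t => t.1 = k) = insert s ((terms A).filter
            (fun t => t.1 = k ∧ (some s : Option (K × L × G)) ≠ some t)) := by
          ext t
          rw [Finset.mem_insert, Finset.mem_filter, Finset.mem_filter]
          constructor
          · rintro ⟨a, b⟩
            by_cases h : t = s
            · exact Or.inl h
            · exact Or.inr ⟨a, b, fun h2 => h (Option.some.inj h2).symm⟩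
          · rintro (rfl | ⟨a, b, _⟩)
            · exact ⟨hs, hk⟩
            · exact ⟨a, b⟩
        rw [h1, Finset.sum_insert (by simp)] at hr
        unfold cw
        linarith
    have h1 : cw p o * ‖F (x, k)‖ ^ 2 ≤ μ * ‖F (x, k)‖ ^ 2 +
        ∑ t ∈ terms A with t.1 = k ∧ o ≠ some t, p t * ‖F (x, k)‖ ^ 2 := by
      rw [← Finset.sum_mul, ← add_mul]
      exact mul_le_mul_of_nonneg_right hcw (by positivity)
    have h2 : ∑ t ∈ terms A with t.1 = k ∧ o ≠ some t, p t * ‖F (x, k)‖ ^ 2 ≤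
        ∑ t ∈ terms A with t.1 = k ∧ o ≠ some t, ∑ s ∈ terms A with s ≠ t ∧ s.2.1 = t.2.1,
          (en (terms A) F n s.1 (some s) (s.2.2 * t.2.2⁻¹ * x) +
            μ * ∑ m ∈ Finset.range n, en (terms A) F m s.1 (some s) (s.2.2 * t.2.2⁻¹ * x)) := by
      refine Finset.sum_le_sum fun t ht => ?_
      obtain ⟨ht1, ht2, _⟩ := Finset.mem_filter.1 ht
      have h3 := step hp hF x t ht1
      rw [ht2] at h3
      refine h3.trans (Finset.sum_le_sum fun s hs => ?_)
      have hs1 := (Finset.mem_filter.1 hs).1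
      exact ih s.1 (some s) (fun r hr => by
        rw [← Option.some.inj hr]
        exact ⟨hs1, rfl⟩) (hp.row s hs1) _
    refine (h1.trans (add_le_add le_rfl h2)).trans (le_of_eq ?_)
    rw [Finset.sum_range_succ', en_zero, en_succ]
    have h3 : ∀ m, en (terms A) F (m + 1) k o x = _ := fun m => en_succ (terms A) F m k o x
    rw [Finset.sum_congr rfl fun m _ => h3 m]
    rw [Finset.sum_comm' (s := Finset.range n) (t' := (terms A).filter
      (fun t => t.1 = k ∧ o ≠ some t)) (t := fun _ => (terms A).filter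
      (fun t => t.1 = k ∧ o ≠ some t)) (s' := fun _ => Finset.range n) (by
        intro a b
        tauto)]
    have h4 : ∀ t, ∑ m ∈ Finset.range n, ∑ s ∈ terms A with s ≠ t ∧ s.2.1 = t.2.1,
        en (terms A) F m s.1 (some s) (s.2.2 * t.2.2⁻¹ * x) =
        ∑ s ∈ terms A with s ≠ t ∧ s.2.1 = t.2.1, ∑ m ∈ Finset.range n,
          en (terms A) F m s.1 (some s) (s.2.2 * t.2.2⁻¹ * x) := fun t => Finset.sum_comm
    rw [Finset.sum_congr rfl fun t _ => h4 t]
    simp only [Finset.sum_add_distrib, Finset.mul_sum]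
    rw [mul_add]
    simp only [Finset.mul_sum]
    ring

end Pool.Agent.R625.AT
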