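import Pool.Agent.R625.AT.Ker

/-!
Two different reduced paths with the same ends give a closed reduced path.
-/

set_option autoImplicit false
set_option linter.unusedSectionVars false

open scoped Classical

namespace Pool.Agent.R625.AT

variable {G : Type} [Group G] {K L : Type} [Fintype K] [Fintype L] [DecidableEq K] [DecidableEq L]

/-- the path returns to its first row -/
def Clo (z : List ((K × L × G) × (K × L × G))) : Prop :=
  z.head?.map (fun p => p.1.1) = z.getLast?.map (fun p => p.2.1)

theorem val_append (v w : List ((K × L × G) × (K × L × G))) : val (v ++ w) = val v * val w := by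
  simp [val]

/-- the inverse path -/
def inw (v : List ((K × L × G) × (K × L × G))) : List ((K × L × G) × (K × L × G)) :=
  (v.map Prod.swap).reverse

theorem val_inw (v : List ((K × L × G) × (K × L × G))) : val (inw v) = (val v)⁻¹ := by
  induction v with
  | nil => simp [inw, val]
  | cons p v ih =>
    have h1 : inw (p :: v) = inw v ++ [p.swap] := by simp [inw]
    rw [h1, val_append, ih, val_cons]
    simp [val]

theorem head_inw (v : List ((K × L × G) × (K × L × G))) :
    (inw v).head? = v.getLast?.map Prod.swap := by
  unfold inw
  rw [List.head?_reverse, List.getLast?_map]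

theorem last_inw (v : List ((K × L × G) × (K × L × G))) :
    (inw v).getLast? = v.head?.map Prod.swap := by
  unfold inw
  rw [List.getLast?_reverse, List.head?_map]

theorem fin_last (k : K) (v : List ((K × L × G) × (K × L × G))) :
    (v.getLast?.map (fun p => p.2.1)).getD k = fin k v := by
  unfold fin
  cases v.getLast? <;> rfl

theorem red_join (T : Finset (K × L × G)) (v w : List ((K × L × G) × (K × L × G)))
    (hv : Red T v) (hw : Red T w)
    (h : ∀ p ∈ v.head?, ∀ q ∈ w.head?, p.1.1 = q.1.1 ∧ p.1 ≠ q.1) : Red T (inw v ++ w) := by
  constructor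
  · intro p hp
    rcases List.mem_append.1 hp with hp | hp
    · unfold inw at hp
      rw [List.mem_reverse, List.mem_map] at hp
      obtain ⟨q, hq, rfl⟩ := hp
      have := hv.1 q hq
      exact ⟨this.2.1, this.1, this.2.2.1.symm, this.2.2.2.symm⟩
    · exact hw.1 p hp
  · rw [List.isChain_append]
    refine ⟨?_, hw.2, ?_⟩
    · unfold inw
      rw [List.isChain_reverse, List.isChain_map]
      exact hv.2.imp fun p q hpq => ⟨hpq.1.symm, hpq.2.symm⟩
    · intro x hx y hy
      rw [last_inw, Option.mem_map] at hx
      obtain ⟨q, hq, rfl⟩ := hx
      exact h q hq y hy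

theorem red_tail {T : Finset (K × L × G)} {p : (K × L × G) × (K × L × G)}
    {v : List ((K × L × G) × (K × L × G))} (h : Red T (p :: v)) :
    Red T v ∧ ∀ q ∈ v.head?, p.2.1 = q.1.1 ∧ p.2 ≠ q.1 :=
  ⟨⟨fun q hq => h.1 q (List.mem_cons_of_mem _ hq), (List.isChain_cons.1 h.2).2⟩,
    (List.isChain_cons.1 h.2).1⟩

/-- a joined path is closed -/
theorem clo_join (k : K) (v w : List ((K × L × G) × (K × L × G))) (hw : w ≠ [])
    (h1 : ∀ q ∈ w.head?, q.1.1 = k) (h2 : fin k v = fin k w) : Clo (inw v ++ w) := by
  unfold Clo
  rw [List.getLast?_append_of_ne_nil _ hw, List.head?_append, head_inw]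
  obtain ⟨r, hr⟩ : ∃ r, w.getLast? = some r :=
    ⟨w.getLast hw, List.getLast?_eq_getLast_of_ne_nil _⟩
  have h3 : fin k w = r.2.1 := by
    unfold fin
    rw [hr]
  rw [hr]
  cases hv : v.getLast? with
  | none =>
    have hfv : fin k v = k := by
      unfold fin
      rw [hv]
    obtain ⟨q, hq⟩ : ∃ q, w.head? = some q := ⟨w.head hw, List.head?_eq_some_head hw⟩
    have := h1 q (by rw [hq]; rfl)
    rw [hq]
    simp only [Option.map_none, Option.none_or, Option.map_some]
    rw [this, ← h3, ← h2, hfv]
  | some s =>
    have hfv : fin k v = s.2.1 := by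
      unfold fin
      rw [hv]
    simp only [Option.map_some, Option.some_or]
    change some s.2.1 = some r.2.1
    rw [← h3, ← h2, hfv]

/-- two distinct reduced paths with the same ends give a relation -/
theorem relation (T : Finset (K × L × G)) : ∀ (v w : List ((K × L × G) × (K × L × G))) (k : K),
    Red T v → Red T w → (∀ q ∈ v.head?, q.1.1 = k) → (∀ q ∈ w.head?, q.1.1 = k) → v ≠ w →
    fin k v = fin k w → val v = val w →
    ∃ z : List ((K × L × G) × (K × L × G)), z ≠ [] ∧ Red T z ∧ Clo z ∧
      z.length ≤ v.length + w.length ∧ val z = 1 := by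
  intro v
  induction v with
  | nil =>
    intro w k _ hw _ h2 hne hf h
    have hw0 : w ≠ [] := fun h0 => hne h0.symm
    refine ⟨w, hw0, hw, ?_, by simp, by rw [← h]; simp [val]⟩
    have := clo_join k [] w hw0 h2 hf
    simpa [inw] using this
  | cons p v ih =>
    intro w k hv hw h1 h2 hne hf h
    cases w with
    | nil =>
      refine ⟨p :: v, hne, hv, ?_, by simp, by rw [h]; simp [val]⟩
      have := clo_join k [] (p :: v) hne h1 hf.symm
      simpa [inw] using this
    | cons q w =>
      have hpk : p.1.1 = k := h1 p rfl
      have hqk : q.1.1 = k := h2 q rfl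
      by_cases e1 : p.1 = q.1
      · by_cases e2 : p.2 = q.2
        · have hpq : p = q := Prod.ext e1 e2
          subst hpq
          obtain ⟨z, hz1, hz2, hz3, hz4, hz5⟩ := ih w p.2.1 (red_tail hv).1 (red_tail hw).1
            (fun r hr => ((red_tail hv).2 r hr).1.symm)
            (fun r hr => ((red_tail hw).2 r hr).1.symm) (fun h3 => hne (by rw [h3])) (by
              rw [fin_cons, fin_cons] at hf
              exact hf) (by
              rw [val_cons, val_cons] at h
              exact mul_left_cancel h)
          exact ⟨z, hz1, hz2, hz3, hz4.trans (by simp only [List.length_cons]; omega), hz5⟩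
        · have hcol : q.2.2.1 = p.2.2.1 := by
            rw [(hw.1 q (by simp)).2.2.2, (hv.1 p (by simp)).2.2.2, e1]
          refine ⟨inw v ++ (p.2, q.2) :: w, by simp, ?_, ?_, ?_, ?_⟩
          · refine red_join T v _ (red_tail hv).1 ⟨?_, ?_⟩ ?_
            · intro r hr
              rcases List.mem_cons.1 hr with rfl | hr
              · exact ⟨(hv.1 p (by simp)).2.1, (hw.1 q (by simp)).2.1, fun h3 => e2 h3.symm,
                  hcol⟩
              · exact hw.1 r (List.mem_cons_of_mem _ hr)
            · exact List.isChain_cons.2 ⟨(red_tail hw).2, (red_tail hw).1.2⟩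
            · intro r hr s hs
              have : s = (p.2, q.2) := by simpa using hs.symm
              rw [this]
              exact ⟨((red_tail hv).2 r hr).1.symm, ((red_tail hv).2 r hr).2.symm⟩
          · refine clo_join p.2.1 v _ (by simp) (fun r hr => ?_) ?_
            · have : r = (p.2, q.2) := by simpa using hr.symm
              rw [this]
            · rw [fin_cons, fin_cons] at hf
              rw [fin_cons]
              exact hf
          · simp only [List.length_append, inw, List.length_reverse, List.length_map,
              List.length_cons]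
            omega
          · rw [val_append, val_inw, val_cons]
            rw [val_cons, val_cons, e1] at h
            have h3 : p.2.2.2⁻¹ * val v = q.2.2.2⁻¹ * val w := by
              rw [mul_assoc, mul_assoc] at h
              exact mul_left_cancel h
            change (val v)⁻¹ * (p.2.2.2 * q.2.2.2⁻¹ * val w) = 1
            rw [mul_assoc p.2.2.2, ← h3]
            group
      · refine ⟨inw (p :: v) ++ q :: w, by simp, red_join T _ _ hv hw ?_, ?_, ?_, ?_⟩
        · intro r hr s hs
          have g1 : r = p := by simpa using hr.symm
          have g2 : s = q := by simpa using hs.symm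
          rw [g1, g2]
          exact ⟨by rw [hpk, hqk], e1⟩
        · exact clo_join k (p :: v) (q :: w) (by simp) h2 hf
        · simp only [List.length_append, inw, List.length_reverse, List.length_map,
            List.length_cons]
          omega
        · rw [val_append, val_inw, h, inv_mul_cancel]

end Pool.Agent.R625.AT
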